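import Mathlib

/-!
Cocycles on a normal subgroup of prime index `ℓ` (the kernel of a character): corestriction, and
descent of coboundaries up to a factor `ℓ`.
-/

set_option autoImplicit false
set_option linter.all false

namespace Pool.Agent.H571.JL

theorem em_apply {M : Type*} [AddCommGroup M] (a b : AddMonoid.End M) (x : M) :
    (a * b) x = a (b x) := rfl

section abs

variable {G M : Type*} [Group G] [AddCommGroup M] {ℓ : ℕ} [Fact ℓ.Prime]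

/-- `H2` is the kernel of the character `χ` of `H1`. -/
structure Par (H1 H2 : Subgroup G) (χ : G → ZMod ℓ) : Prop where
  le : H2 ≤ H1
  mul : ∀ σ ∈ H1, ∀ τ ∈ H1, χ (σ * τ) = χ σ + χ τ
  ker : ∀ σ ∈ H1, (σ ∈ H2 ↔ χ σ = 0)

variable {ρ : G →* AddMonoid.End M} {H1 H2 : Subgroup G} {χ : G → ZMod ℓ}

theorem Par.one (h : Par H1 H2 χ) : χ 1 = 0 := (h.ker 1 H1.one_mem).1 H2.one_mem

theorem Par.inv (h : Par H1 H2 χ) {σ : G} (hσ : σ ∈ H1) : χ σ⁻¹ = - χ σ := by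
  have h1 := h.mul _ (H1.inv_mem hσ) _ hσ
  rw [inv_mul_cancel, h.one] at h1
  exact eq_neg_of_add_eq_zero_left h1.symm

theorem Par.pow (h : Par H1 H2 χ) {σ : G} (hσ : σ ∈ H1) (n : ℕ) : χ (σ ^ n) = n * χ σ := by
  induction n with
  | zero => rw [pow_zero, h.one, Nat.cast_zero, zero_mul]
  | succ n ih =>
    rw [pow_succ, h.mul _ (H1.pow_mem hσ n) _ hσ, ih, Nat.cast_succ, add_mul, one_mul]

/-- the transversal -/
def tr (g : G) (i : ZMod ℓ) : G := g ^ i.val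

theorem tr_mem {g : G} (hg : g ∈ H1) (i : ZMod ℓ) : tr g i ∈ H1 := H1.pow_mem hg _

theorem chi_tr (h : Par H1 H2 χ) {g : G} (hg : g ∈ H1) (hg1 : χ g = 1) (i : ZMod ℓ) :
    χ (tr g i) = i := by
  rw [tr, h.pow hg, hg1, mul_one, ZMod.natCast_val, ZMod.cast_id]

theorem mid_mem (h : Par H1 H2 χ) {g : G} (hg : g ∈ H1) (hg1 : χ g = 1) {σ : G} (hσ : σ ∈ H1)
    (i : ZMod ℓ) : (tr g i)⁻¹ * σ * tr g (i - χ σ) ∈ H2 := by
  have h1 := tr_mem (ℓ := ℓ) hg i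
  have h2 := tr_mem (ℓ := ℓ) hg (i - χ σ)
  have h3 := H1.mul_mem (H1.inv_mem h1) hσ
  rw [h.ker _ (H1.mul_mem h3 h2), h.mul _ h3 _ h2, h.mul _ (H1.inv_mem h1) _ hσ, h.inv h1,
    chi_tr h hg hg1, chi_tr h hg hg1]
  ring

/-- the corestriction -/
noncomputable def cor (ρ : G →* AddMonoid.End M) (χ : G → ZMod ℓ) (g : G) (f : G → M) (σ : G) : M :=
  ∑ i : ZMod ℓ, ρ (tr g i) (f ((tr g i)⁻¹ * σ * tr g (i - χ σ)))

theorem cor_mul (h : Par H1 H2 χ) {f : G → M}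
    (hf : ∀ σ ∈ H2, ∀ τ ∈ H2, f (σ * τ) = f σ + ρ σ (f τ)) {g : G} (hg : g ∈ H1)
    (hg1 : χ g = 1) : ∀ σ ∈ H1, ∀ τ ∈ H1,
      cor ρ χ g f (σ * τ) = cor ρ χ g f σ + ρ σ (cor ρ χ g f τ) := by
  intro σ hσ τ hτ
  have e1 : ∀ i : ZMod ℓ, ρ (tr g i) (f ((tr g i)⁻¹ * (σ * τ) * tr g (i - χ (σ * τ)))) =
      ρ (tr g i) (f ((tr g i)⁻¹ * σ * tr g (i - χ σ))) +
      ρ σ (ρ (tr g (i - χ σ)) (f ((tr g (i - χ σ))⁻¹ * τ * tr g (i - χ σ - χ τ)))) := by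
    intro i
    have h1 := mid_mem h hg hg1 hσ i
    have h2 := mid_mem h hg hg1 hτ (i - χ σ)
    have e2 : (tr g i)⁻¹ * (σ * τ) * tr g (i - χ (σ * τ)) =
        ((tr g i)⁻¹ * σ * tr g (i - χ σ)) *
          ((tr g (i - χ σ))⁻¹ * τ * tr g (i - χ σ - χ τ)) := by
      rw [h.mul _ hσ _ hτ, sub_sub]
      group
    have e3 : tr g i * ((tr g i)⁻¹ * σ * tr g (i - χ σ)) = σ * tr g (i - χ σ) := by group
    rw [e2, hf _ h1 _ h2, map_add, ← em_apply (ρ (tr g i)), ← map_mul, e3, map_mul, em_apply]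
  unfold cor
  rw [Finset.sum_congr rfl fun i _ => e1 i, Finset.sum_add_distrib, map_sum]
  congr 1
  exact Equiv.sum_comp (Equiv.subRight (χ σ))
    (fun i : ZMod ℓ => ρ σ (ρ (tr g i) (f ((tr g i)⁻¹ * τ * tr g (i - χ τ)))))

theorem cor_in {g : G} {f : G → M} {σ : G} (h : χ σ = 0) :
    cor ρ χ g f σ = ∑ i : ZMod ℓ, ρ (tr g i) (f ((tr g i)⁻¹ * σ * tr g i)) := by
  unfold cor
  rw [h]
  simp only [sub_zero]

/-- A cocycle which is a coboundary on a subgroup of index dividing `ℓ` is a coboundary up to a factor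
`ℓ`. -/
theorem dbl (h : Par H1 H2 χ) {f : G → M} (hf : ∀ σ ∈ H1, ∀ τ ∈ H1, f (σ * τ) = f σ + ρ σ (f τ))
    {R : M} (hR : ∀ σ ∈ H2, f σ = ρ σ R - R) :
    ∃ Q : M, ∀ σ ∈ H1, ℓ • f σ = ρ σ Q - Q := by
  by_cases hex : ∃ g ∈ H1, χ g ≠ 0
  · obtain ⟨g0, hg0, h0⟩ := hex
    obtain ⟨g, hg, hg1⟩ : ∃ g ∈ H1, χ g = 1 := by
      refine ⟨g0 ^ (χ g0)⁻¹.val, H1.pow_mem hg0 _, ?_⟩
      rw [h.pow hg0, ZMod.natCast_val, ZMod.cast_id, inv_mul_cancel₀ h0]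
    refine ⟨- ∑ i : ZMod ℓ, (f (tr g i) - ρ (tr g i) R), fun σ hσ => ?_⟩
    have e1 : ∀ i : ZMod ℓ, f σ = (f (tr g i) - ρ (tr g i) R) -
        ρ σ (f (tr g (i - χ σ)) - ρ (tr g (i - χ σ)) R) := by
      intro i
      have h1 := mid_mem h hg hg1 hσ i
      have h2 := tr_mem (ℓ := ℓ) hg i
      have h3 := tr_mem (ℓ := ℓ) hg (i - χ σ)
      have e3 : tr g i * ((tr g i)⁻¹ * σ * tr g (i - χ σ)) = σ * tr g (i - χ σ) := by group
      have e4 := hf _ h2 _ (h.le h1)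
      rw [e3, hf _ hσ _ h3, hR _ h1, map_sub, ← em_apply (ρ (tr g i)), ← map_mul, e3, map_mul,
        em_apply] at e4
      rw [map_sub, eq_sub_iff_add_eq]
      have e5 : f σ = f (tr g i) + (ρ σ (ρ (tr g (i - χ σ)) R) - ρ (tr g i) R) -
        ρ σ (f (tr g (i - χ σ))) := by rw [← e4]; abel
      rw [e5]
      abel
    have e2 : ∑ i : ZMod ℓ, f σ = ℓ • f σ := by
      rw [Finset.sum_const, Finset.card_univ, ZMod.card]
    have e6 : ∑ i : ZMod ℓ, (f (tr g (i - χ σ)) - ρ (tr g (i - χ σ)) R) =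
        ∑ i : ZMod ℓ, (f (tr g i) - ρ (tr g i) R) :=
      Equiv.sum_comp (Equiv.subRight (χ σ)) (fun i : ZMod ℓ => f (tr g i) - ρ (tr g i) R)
    rw [← e2, Finset.sum_congr rfl fun i _ => e1 i, Finset.sum_sub_distrib, ← map_sum, e6, map_neg]
    abel
  · push Not at hex
    refine ⟨ℓ • R, fun σ hσ => ?_⟩
    rw [hR σ ((h.ker σ hσ).2 (hex σ hσ)), map_nsmul, smul_sub]

end abs

section top

open Filter Topology

variable {G M : Type*} [Group G] [TopologicalSpace G] [IsTopologicalGroup G] [AddCommGroup M] {ℓ : ℕ}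
  [Fact ℓ.Prime]

theorem cor_lc (ρ : G →* AddMonoid.End M) {χ : G → ZMod ℓ} (hχ : IsLocallyConstant χ) (g : G)
    {f : G → M} (hf : IsLocallyConstant f) : IsLocallyConstant (cor ρ χ g f) := by
  rw [IsLocallyConstant.iff_eventually_eq]
  intro x
  have h1 : ∀ᶠ y in 𝓝 x, χ y = χ x := (IsLocallyConstant.iff_eventually_eq _).1 hχ x
  have h2 : ∀ᶠ y in 𝓝 x, ∀ i : ZMod ℓ, f ((tr g i)⁻¹ * y * tr g (i - χ x)) =
      f ((tr g i)⁻¹ * x * tr g (i - χ x)) := by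
    rw [eventually_all]
    intro i
    exact (IsLocallyConstant.iff_eventually_eq _).1
      (hf.comp_continuous (f := fun y : G => (tr g i)⁻¹ * y * tr g (i - χ x)) (by fun_prop)) x
  filter_upwards [h1, h2] with y h1 h2
  unfold cor
  rw [h1]
  exact Finset.sum_congr rfl fun i _ => by rw [h2 i]

end top

end Pool.Agent.H571.JL
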