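import Pool.Agent.H571.JL.Mu

/-! The twisting isomorphism and the covering automorphisms, in additive notation. -/

set_option autoImplicit false
set_option linter.all false

open Polynomial IsDedekindDomain

namespace Pool.Agent.H571.JL

open Pool.Agent.Y713.Jac (CoordRing coordMap J mapJ Gal Cochain)
open Pool.Agent.Y713.SE

section add

variable {ℓ : ℕ} {K : Type} [Field K] {L L' L'' : Type} [Field L] [Algebra K L] [Field L']
  [Algebra K L'] [Field L''] [Algebra K L'']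

/-- the group `J(L)`, additively -/
abbrev MJ (ℓ : ℕ) {K : Type} [Field K] (F : K[X]) (L : Type) [Field L] [Algebra K L] : Type :=
  Additive (J ℓ F L)

/-- functoriality -/
noncomputable def aJ (ℓ : ℕ) {K : Type} [Field K] (F : K[X]) {L L' : Type} [Field L] [Algebra K L]
    [Field L'] [Algebra K L'] (φ : L →ₐ[K] L') : MJ ℓ F L →+ MJ ℓ F L' :=
  MonoidHom.toAdditive (mapJ ℓ F φ)

theorem aJ_aJ (F : K[X]) (φ : L →ₐ[K] L') (ψ : L' →ₐ[K] L'') (x : MJ ℓ F L) :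
    aJ ℓ F ψ (aJ ℓ F φ x) = aJ ℓ F (ψ.comp φ) x := mapJ_mapJ φ ψ x

theorem aJ_id (F : K[X]) (x : MJ ℓ F L) : aJ ℓ F (AlgHom.id K L) x = x := mapJ_id x

/-- The polynomial is a product of different linear factors, of degree prime to `ℓ`, and `ζ` is a
primitive `ℓ`-th root of unity. -/
def Good (ℓ : ℕ) (ζ : K) (F : K[X]) : Prop := ∃ (n : ℕ) (D : Dat ℓ n K), D.ζ = ζ ∧ D.f = F

theorem Good.tw {ζ : K} {F : K[X]} (h : Good ℓ ζ F) {d : K} (hd : d ≠ 0) : Good ℓ ζ (C d * F) := by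
  obtain ⟨n, D, h1, rfl⟩ := h
  refine ⟨n, { D with δ := d * D.δ, hδ := mul_ne_zero hd D.hδ }, h1, ?_⟩
  show C (d * D.δ) * ∏ i, (X - C (D.e i)) = C d * (C D.δ * ∏ i, (X - C (D.e i)))
  rw [C_mul, mul_assoc]

variable {F : K[X]} {d : K}

theorem e2 {s : L} (hs : s ^ ℓ = algebraMap K L d) :
    (C d * F).map (algebraMap K L) = C (s ^ ℓ) * F.map (algebraMap K L) := by
  rw [Polynomial.map_mul, map_C, hs]

theorem ne_of_pow (hℓ : ℓ ≠ 0) (hd : d ≠ 0) {s : L} (hs : s ^ ℓ = algebraMap K L d) : s ≠ 0 := by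
  rintro rfl
  rw [zero_pow hℓ] at hs
  exact hd ((map_eq_zero _).1 hs.symm)

theorem e1 (hℓ : ℓ ≠ 0) (hd : d ≠ 0) {s : L} (hs : s ^ ℓ = algebraMap K L d) :
    F.map (algebraMap K L) = C (s⁻¹ ^ ℓ) * (C d * F).map (algebraMap K L) := by
  rw [e2 hs, ← mul_assoc, ← C_mul, inv_pow, inv_mul_cancel₀ (pow_ne_zero ℓ (ne_of_pow hℓ hd hs)),
    C_1, one_mul]

/-- the isomorphism with the twist -/
noncomputable def twA (F : K[X]) (hℓ : ℓ ≠ 0) (hd : d ≠ 0) {s : L}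
    (hs : s ^ ℓ = algebraMap K L d) : MJ ℓ F L ≃+ MJ ℓ (C d * F) L :=
  MulEquiv.toAdditive
    { toFun := pm s⁻¹ (e1 hℓ hd hs)
      invFun := pm s (e2 hs)
      left_inv := fun x => by
        rw [pm_pm (d := s * s⁻¹) _ _ (by
          rw [mul_inv_cancel₀ (ne_of_pow hℓ hd hs), one_pow, C_1, one_mul]) rfl]
        exact pm_one (mul_inv_cancel₀ (ne_of_pow hℓ hd hs)) _ x
      right_inv := fun x => by
        rw [pm_pm (d := s⁻¹ * s) _ _ (by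
          rw [inv_mul_cancel₀ (ne_of_pow hℓ hd hs), one_pow, C_1, one_mul]) rfl]
        exact pm_one (inv_mul_cancel₀ (ne_of_pow hℓ hd hs)) _ x
      map_mul' := map_mul _ }

theorem twA_act (hℓ : ℓ ≠ 0) (hd : d ≠ 0) (φ : L →ₐ[K] L') {s : L} (hs : s ^ ℓ = algebraMap K L d)
    {s' : L'} (hs' : s' ^ ℓ = algebraMap K L' d) (h : φ s = s') (x : MJ ℓ F L) :
    aJ ℓ (C d * F) φ (twA F hℓ hd hs x) = twA F hℓ hd hs' (aJ ℓ F φ x) := by
  exact mu_cm (F := C d * F) (G := F) φ (c := s⁻¹) (c' := s'⁻¹) (by rw [map_inv₀, h])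
    (e1 hℓ hd hs) (e1 hℓ hd hs') x

theorem e0 {c : L} (hc : c ^ ℓ = 1) :
    F.map (algebraMap K L) = C (c ^ ℓ) * F.map (algebraMap K L) := by
  rw [hc, C_1, one_mul]

/-- the automorphism `y ↦ c y`, `c ^ ℓ = 1` -/
noncomputable def zp (F : K[X]) {c : L} (hc : c ^ ℓ = 1) : MJ ℓ F L →+ MJ ℓ F L :=
  MonoidHom.toAdditive (pm c (e0 hc))

theorem zp_one {c : L} (hc : c ^ ℓ = 1) (h : c = 1) (x : MJ ℓ F L) : zp F hc x = x :=
  pm_one h (e0 hc) x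

theorem zp_congr {c c' : L} (hc : c ^ ℓ = 1) (hc' : c' ^ ℓ = 1) (h : c = c') (x : MJ ℓ F L) :
    zp F hc x = zp F hc' x := by
  subst h
  rfl

theorem pm_mul' (hℓ : ℓ ≠ 0) (hd : d ≠ 0) {s s' c : L} (hs : s ^ ℓ = algebraMap K L d)
    (hs' : s' ^ ℓ = algebraMap K L d) (hc : c ^ ℓ = 1) (h : s' = s * c⁻¹) (x : J ℓ F L) :
    pm s'⁻¹ (e1 hℓ hd hs') x = pm s⁻¹ (e1 hℓ hd hs) (pm c (e0 hc) x) :=
  (pm_pm (d := s'⁻¹) (e1 hℓ hd hs) (e0 hc) (e1 hℓ hd hs') (by rw [h, mul_inv, inv_inv]) x).symm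

theorem twA_mul (hℓ : ℓ ≠ 0) (hd : d ≠ 0) {s s' c : L} (hs : s ^ ℓ = algebraMap K L d)
    (hs' : s' ^ ℓ = algebraMap K L d) (hc : c ^ ℓ = 1) (h : s' = s * c⁻¹) (x : MJ ℓ F L) :
    twA F hℓ hd hs' x = twA F hℓ hd hs (zp F hc x) :=
  pm_mul' hℓ hd hs hs' hc h x

theorem pow_zeta {c : L} (hc : c ^ ℓ = 1) (n : ℕ) : (c ^ n) ^ ℓ = 1 := by
  rw [← pow_mul, mul_comm, pow_mul, hc, one_pow]

theorem zeta_pow {ζ : K} (hF : Good ℓ ζ F) (L : Type) [Field L] [Algebra K L] :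
    (algebraMap K L ζ) ^ ℓ = 1 := by
  obtain ⟨n, D, rfl, rfl⟩ := hF
  rw [← map_pow, D.hζ.pow_eq_one, map_one]

/-- the norm of the covering automorphism is zero -/
theorem sum_zp {ζ : K} (hF : Good ℓ ζ F) (x : J ℓ F L) :
    ∏ j ∈ Finset.range ℓ, pm ((algebraMap K L ζ) ^ j) (e0 (pow_zeta (zeta_pow hF L) j)) x = 1 := by
  have hz := zeta_pow hF L
  obtain ⟨n, D, rfl, rfl⟩ := hF
  obtain ⟨a, rfl⟩ := (D.Th_bij L).2 x
  have key : ∀ j : ℕ, pm ((algebraMap K L D.ζ) ^ j) (e0 (pow_zeta hz j)) (D.Th L a) =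
      D.Th L (((D.base L).sC)^[j] a) := by
    intro j
    induction j with
    | zero => exact pm_one (pow_zero _) _ _
    | succ j ih =>
      rw [Function.iterate_succ_apply', ← pm_zeta D L rfl (e0 hz), ← ih]
      exact (pm_pm _ _ _ (pow_succ' _ _) _).symm
  rw [Finset.prod_congr rfl fun j _ => key j, ← map_prod, (D.base L).prod_sC, map_one]

end add

end Pool.Agent.H571.JL
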