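import Pool.Agent.Y713.SE.Glo3
import Pool.Agent.H571.JL.Abs
import Pool.Agent.H571.JL.Tw
import Pool.Agent.H571.BC.Cor

/-!
Corestriction for cocycles with values in a Jacobian; Kummer extensions of degree `ℓ`.
-/

set_option autoImplicit false
set_option linter.all false

open Polynomial IsDedekindDomain

namespace Pool.Agent.H571.JL

open Pool.Agent.Y713.Jac (CoordRing coordMap J mapJ Gal Cochain)
open Pool.Agent.W309.TD (locConst_apply)

section cor

variable {ℓ : ℕ} {K : Type} [Field K] (F : K[X])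

/-- the action of the Galois group -/
noncomputable def rhoJ (ℓ : ℕ) {K : Type} [Field K] (F : K[X]) :
    Gal K →* AddMonoid.End (MJ ℓ F (SeparableClosure K)) where
  toFun σ := aJ ℓ F σ.toAlgHom
  map_one' := AddMonoidHom.ext fun x => aJ_id F x
  map_mul' σ τ := AddMonoidHom.ext fun x => (aJ_aJ F τ.toAlgHom σ.toAlgHom x).symm

/-- the action of the Galois group of `E` -/
noncomputable def rhoE (ℓ : ℕ) {K : Type} [Field K] (F : K[X]) (E : Type) [Field E] [Algebra K E] :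
    Gal E →* AddMonoid.End (MJ ℓ F (SeparableClosure E)) where
  toFun τ := aJ ℓ F (τ.toAlgHom.restrictScalars K)
  map_one' := AddMonoidHom.ext fun x => aJ_id F x
  map_mul' σ τ := AddMonoidHom.ext fun x =>
    (aJ_aJ F (τ.toAlgHom.restrictScalars K) (σ.toAlgHom.restrictScalars K) x).symm

variable (S : Set (SeparableClosure K))

/-- cocycles, additively -/
def CocA (ℓ : ℕ) (F : K[X]) (S : Set (SeparableClosure K))
    (f : Gal K → MJ ℓ F (SeparableClosure K)) : Prop :=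
  IsLocallyConstant f ∧ ∀ σ τ : Gal K, Fixes S σ → Fixes S τ →
    f (σ * τ) = f σ + aJ ℓ F σ.toAlgHom (f τ)

/-- coboundaries, additively -/
def CobA (ℓ : ℕ) (F : K[X]) (S : Set (SeparableClosure K))
    (f : Gal K → MJ ℓ F (SeparableClosure K)) : Prop :=
  ∃ Q : MJ ℓ F (SeparableClosure K), ∀ σ : Gal K, Fixes S σ → f σ = aJ ℓ F σ.toAlgHom Q - Q

/-- local triviality, additively -/
def LocA (ℓ : ℕ) (F : K[X]) (S : Set (SeparableClosure K)) (E : Type) [Field E] [Algebra K E]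
    (f : Gal K → MJ ℓ F (SeparableClosure K)) : Prop :=
  ∀ ι : SeparableClosure K →ₐ[K] SeparableClosure E, ∃ P : MJ ℓ F (SeparableClosure E),
    ∀ (τ : Gal E) (σ : Gal K), Fixes S σ → RestrictsTo ι τ σ →
      aJ ℓ F ι (f σ) = aJ ℓ F (τ.toAlgHom.restrictScalars K) P - P

/-- the subgroup of the automorphisms which fix the elements of `S` -/
def fixS (S : Set (SeparableClosure K)) : Subgroup (Gal K) where
  carrier := {σ | Fixes S σ}
  one_mem' := fun x _ => rfl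
  mul_mem' := fun {a b} ha hb x hx => by
    show a (b x) = x
    rw [hb x hx, ha x hx]
  inv_mem' := fun {a} ha x hx => by
    show a.symm x = x
    rw [AlgEquiv.symm_apply_eq]
    exact (ha x hx).symm

/-- the pairs of compatible automorphisms -/
def PairS (S : Set (SeparableClosure K)) {E : Type} [Field E] [Algebra K E]
    (ι : SeparableClosure K →ₐ[K] SeparableClosure E) : Subgroup (Gal E × Gal K) where
  carrier := {q | Fixes S q.2 ∧ RestrictsTo ι q.1 q.2}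
  one_mem' := ⟨fun x _ => rfl, fun x => rfl⟩
  mul_mem' := fun {a b} ha hb => ⟨(fixS S).mul_mem ha.1 hb.1, fun x => by
    show a.1 (b.1 (ι x)) = ι (a.2 (b.2 x))
    rw [hb.2, ha.2]⟩
  inv_mem' := fun {a} ha => ⟨(fixS S).inv_mem ha.1, fun x => by
    show a.1.symm (ι x) = ι (a.2.symm x)
    rw [AlgEquiv.symm_apply_eq, ha.2, AlgEquiv.apply_symm_apply]⟩

variable {S}

/-- A Kummer extension of degree `ℓ`: `s ^ ℓ` is in `K`, and `g` maps `s` to `ζ⁻¹ s` and fixes the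
elements of `S`. -/
structure Step (ℓ : ℕ) (S : Set (SeparableClosure K)) (s : SeparableClosure K) (d ζ : K)
    (g : Gal K) : Prop where
  prime : ℓ.Prime
  prim : IsPrimitiveRoot ζ ℓ
  dne : d ≠ 0
  sq : s ^ ℓ = algebraMap K (SeparableClosure K) d
  g1 : Fixes S g
  gs : g s = (algebraMap K (SeparableClosure K) ζ)⁻¹ * s

/-- `(ζ⁻¹) ^ i` -/
noncomputable def zi (ζ : K) (i : ZMod ℓ) : SeparableClosure K :=
  ((algebraMap K (SeparableClosure K) ζ)⁻¹) ^ i.val

variable {s : SeparableClosure K} {d ζ : K} {g : Gal K}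

theorem prim' (hζ : IsPrimitiveRoot ζ ℓ) :
    IsPrimitiveRoot ((algebraMap K (SeparableClosure K) ζ)⁻¹) ℓ :=
  (hζ.map_of_injective (algebraMap K (SeparableClosure K)).injective).inv

theorem zi_add [NeZero ℓ] (hζ : IsPrimitiveRoot ζ ℓ) (i j : ZMod ℓ) :
    zi ζ (i + j) = zi ζ i * zi ζ j := by
  unfold zi
  rw [ZMod.val_add, ← pow_add]
  exact (pow_eq_pow_mod (i.val + j.val) (prim' hζ).pow_eq_one).symm

theorem zi_inj [NeZero ℓ] (hζ : IsPrimitiveRoot ζ ℓ) {i j : ZMod ℓ} (h : zi ζ i = zi ζ j) :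
    i = j := by
  have h1 := (prim' hζ).pow_inj (ZMod.val_lt i) (ZMod.val_lt j) h
  exact ZMod.val_injective ℓ h1

theorem exists_zi [NeZero ℓ] (hζ : IsPrimitiveRoot ζ ℓ) (hd : d ≠ 0)
    (hs : s ^ ℓ = algebraMap K (SeparableClosure K) d) (σ : Gal K) :
    ∃ i : ZMod ℓ, σ s = zi ζ i * s := by
  have hs0 := ne_of_pow (NeZero.ne ℓ) hd hs
  have h1 : (σ s / s) ^ ℓ = 1 := by
    rw [div_pow, ← map_pow, hs, σ.commutes, div_self]
    exact (_root_.map_ne_zero _).2 hd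
  obtain ⟨i, hi, h2⟩ := (prim' hζ).eq_pow_of_pow_eq_one h1
  refine ⟨(i : ZMod ℓ), ?_⟩
  unfold zi
  rw [ZMod.val_natCast_of_lt hi, h2, div_mul_cancel₀ _ hs0]

/-- the exponent -/
noncomputable def dlog (ℓ : ℕ) (ζ : K) (s y : SeparableClosure K) : ZMod ℓ :=
  Classical.epsilon (fun i : ZMod ℓ => y = zi ζ i * s)

/-- the Kummer character -/
noncomputable def chi (ℓ : ℕ) (ζ : K) (s : SeparableClosure K) (σ : Gal K) : ZMod ℓ :=
  dlog ℓ ζ s (σ s)

theorem chi_spec [NeZero ℓ] (hζ : IsPrimitiveRoot ζ ℓ) (hd : d ≠ 0)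
    (hs : s ^ ℓ = algebraMap K (SeparableClosure K) d) (σ : Gal K) :
    σ s = zi ζ (chi ℓ ζ s σ) * s := by
  have h := exists_zi hζ hd hs σ
  exact Classical.epsilon_spec h

theorem chi_eq [NeZero ℓ] (hζ : IsPrimitiveRoot ζ ℓ) (hd : d ≠ 0)
    (hs : s ^ ℓ = algebraMap K (SeparableClosure K) d) {σ : Gal K} {i : ZMod ℓ}
    (h : σ s = zi ζ i * s) : chi ℓ ζ s σ = i := by
  have h1 := chi_spec hζ hd hs σ
  rw [h] at h1
  exact (zi_inj hζ (mul_right_cancel₀ (ne_of_pow (NeZero.ne ℓ) hd hs) h1)).symm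

theorem zi_zero [NeZero ℓ] : zi (ℓ := ℓ) ζ 0 = 1 := by
  unfold zi
  rw [ZMod.val_zero, pow_zero]

theorem map_zi (σ : Gal K) (i : ZMod ℓ) : σ (zi ζ i) = zi ζ i := by
  unfold zi
  rw [map_pow, map_inv₀, σ.commutes]

theorem chi_mul [NeZero ℓ] (hζ : IsPrimitiveRoot ζ ℓ) (hd : d ≠ 0)
    (hs : s ^ ℓ = algebraMap K (SeparableClosure K) d) (σ τ : Gal K) :
    chi ℓ ζ s (σ * τ) = chi ℓ ζ s σ + chi ℓ ζ s τ := by
  apply chi_eq hζ hd hs
  show σ (τ s) = _
  rw [chi_spec hζ hd hs τ, map_mul, map_zi, chi_spec hζ hd hs σ, zi_add hζ]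
  ring

theorem chi_zero [NeZero ℓ] (hζ : IsPrimitiveRoot ζ ℓ) (hd : d ≠ 0)
    (hs : s ^ ℓ = algebraMap K (SeparableClosure K) d) (σ : Gal K) :
    chi ℓ ζ s σ = 0 ↔ σ s = s := by
  constructor
  · intro h
    have h1 := chi_spec hζ hd hs σ
    rw [h, zi_zero, one_mul] at h1
    exact h1
  · intro h
    apply chi_eq hζ hd hs
    rw [zi_zero, one_mul, h]

theorem fixes_insert {σ : Gal K} : Fixes (insert s S) σ ↔ Fixes S σ ∧ σ s = s := by
  constructor
  · intro h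
    exact ⟨fun x hx => h x (Set.mem_insert_of_mem _ hx), h s (Set.mem_insert _ _)⟩
  · rintro ⟨h1, h2⟩ x hx
    rcases Set.mem_insert_iff.1 hx with rfl | hx
    · exact h2
    · exact h1 x hx

theorem parG [Fact ℓ.Prime] (hζ : IsPrimitiveRoot ζ ℓ) (hd : d ≠ 0)
    (hs : s ^ ℓ = algebraMap K (SeparableClosure K) d) :
    Par (fixS S) (fixS (insert s S)) (chi ℓ ζ s) where
  le := fun σ h => (fixes_insert.1 h).1
  mul := fun σ _ τ _ => chi_mul hζ hd hs σ τ
  ker := fun σ hσ => by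
    rw [chi_zero hζ hd hs]
    exact ⟨fun h => (fixes_insert.1 h).2, fun h => fixes_insert.2 ⟨hσ, h⟩⟩

theorem parP [Fact ℓ.Prime] (hζ : IsPrimitiveRoot ζ ℓ) (hd : d ≠ 0)
    (hs : s ^ ℓ = algebraMap K (SeparableClosure K) d) {E : Type} [Field E] [Algebra K E]
    (ι : SeparableClosure K →ₐ[K] SeparableClosure E) :
    Par (PairS S ι) (PairS (insert s S) ι) (fun q => chi ℓ ζ s q.2) where
  le := fun σ h => ⟨(fixes_insert.1 h.1).1, h.2⟩
  mul := fun σ _ τ _ => chi_mul hζ hd hs σ.2 τ.2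
  ker := fun σ hσ => by
    rw [chi_zero hζ hd hs]
    exact ⟨fun h => (fixes_insert.1 h.1).2, fun h => ⟨fixes_insert.2 ⟨hσ.1, h⟩, hσ.2⟩⟩

theorem Step.chi_g [Fact ℓ.Prime] (T : Step ℓ S s d ζ g) : chi ℓ ζ s g = 1 := by
  apply chi_eq T.prim T.dne T.sq
  rw [T.gs]
  unfold zi
  have h1 : (1 : ZMod ℓ).val = 1 := by
    have : Fact (1 < ℓ) := ⟨T.prime.one_lt⟩
    exact ZMod.val_one ℓ
  rw [h1, pow_one]

end cor

end Pool.Agent.H571.JL
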