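import Pool.Agent.H571.JL.Cor

/-!
Corestriction for cocycles with values in a Jacobian: local constancy, local triviality, torsion.
-/

set_option autoImplicit false
set_option linter.all false

open Polynomial IsDedekindDomain Filter Topology

namespace Pool.Agent.H571.JL

open Pool.Agent.Y713.Jac (CoordRing coordMap J mapJ Gal Cochain)
open Pool.Agent.W309.TD (locConst_apply)

section cor2

variable {ℓ : ℕ} [Fact ℓ.Prime] {K : Type} [Field K] {F : K[X]} {S : Set (SeparableClosure K)}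
  {s : SeparableClosure K} {d ζ : K} {g : Gal K}

theorem chi_lc : IsLocallyConstant (chi ℓ ζ s) :=
  (locConst_apply (K := K) s).comp (dlog ℓ ζ s)

/-- the corestriction -/
noncomputable def corJ (ℓ : ℕ) [Fact ℓ.Prime] {K : Type} [Field K] (F : K[X]) (ζ : K)
    (s : SeparableClosure K) (g : Gal K) (f : Gal K → MJ ℓ F (SeparableClosure K)) :
    Gal K → MJ ℓ F (SeparableClosure K) := cor (rhoJ ℓ F) (chi ℓ ζ s) g f

theorem corJ_lc {f : Gal K → MJ ℓ F (SeparableClosure K)} (hf : IsLocallyConstant f) :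
    IsLocallyConstant (corJ ℓ F ζ s g f) := cor_lc (rhoJ ℓ F) chi_lc g hf

theorem corJ_mul (T : Step ℓ S s d ζ g) {f : Gal K → MJ ℓ F (SeparableClosure K)}
    (hf : ∀ σ τ, Fixes (insert s S) σ → Fixes (insert s S) τ →
      f (σ * τ) = f σ + aJ ℓ F σ.toAlgHom (f τ)) :
    ∀ σ τ, Fixes S σ → Fixes S τ →
      corJ ℓ F ζ s g f (σ * τ) = corJ ℓ F ζ s g f σ + aJ ℓ F σ.toAlgHom (corJ ℓ F ζ s g f τ) :=
  fun σ τ hσ hτ => cor_mul (ρ := rhoJ ℓ F) (parG T.prim T.dne T.sq) (f := f)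
    (fun σ hσ τ hτ => hf σ τ hσ hτ) T.g1 T.chi_g σ hσ τ hτ

theorem conj_mem (T : Step ℓ S s d ζ g) {σ : Gal K} (hσ : Fixes (insert s S) σ) (i : ZMod ℓ) :
    Fixes (insert s S) ((tr g i)⁻¹ * σ * tr g i) := by
  have h := mid_mem (parG (S := S) T.prim T.dne T.sq) T.g1 T.chi_g (fixes_insert.1 hσ).1 i
  rw [(chi_zero T.prim T.dne T.sq σ).2 (fixes_insert.1 hσ).2, sub_zero] at h
  exact h

theorem corJ_in (T : Step ℓ S s d ζ g) {f : Gal K → MJ ℓ F (SeparableClosure K)} {σ : Gal K}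
    (hσ : Fixes (insert s S) σ) : corJ ℓ F ζ s g f σ =
      ∑ i : ZMod ℓ, aJ ℓ F (tr g i).toAlgHom (f ((tr g i)⁻¹ * σ * tr g i)) :=
  cor_in ((chi_zero T.prim T.dne T.sq σ).2 (fixes_insert.1 hσ).2)

theorem corJ_coc (T : Step ℓ S s d ζ g) {f : Gal K → MJ ℓ F (SeparableClosure K)}
    (hf : CocA ℓ F (insert s S) f) : CocA ℓ F S (fun σ => ℓ • corJ ℓ F ζ s g f σ) :=
  ⟨(corJ_lc hf.1).comp (fun P => ℓ • P), fun σ τ hσ hτ => by
    show ℓ • corJ ℓ F ζ s g f (σ * τ) = ℓ • corJ ℓ F ζ s g f σ +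
      aJ ℓ F σ.toAlgHom (ℓ • corJ ℓ F ζ s g f τ)
    rw [corJ_mul T hf.2 σ τ hσ hτ, map_nsmul, smul_add]⟩

theorem corJ_loc (T : Step ℓ S s d ζ g) {E : Type} [Field E] [Algebra K E]
    {f : Gal K → MJ ℓ F (SeparableClosure K)}
    (hf : ∀ σ τ, Fixes (insert s S) σ → Fixes (insert s S) τ →
      f (σ * τ) = f σ + aJ ℓ F σ.toAlgHom (f τ))
    (h : LocA ℓ F (insert s S) E f) : LocA ℓ F S E (fun σ => ℓ • corJ ℓ F ζ s g f σ) := by
  intro ι
  choose P hP using fun i : ZMod ℓ => h (ι.comp (tr g i).toAlgHom)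
  have hc := corJ_mul T hf
  have key : ∀ q ∈ PairS (insert s S) ι, aJ ℓ F ι (corJ ℓ F ζ s g f q.2) =
      aJ ℓ F (q.1.toAlgHom.restrictScalars K) (∑ i, P i) - ∑ i, P i := by
    rintro ⟨τ, σ⟩ ⟨hσ, hq⟩
    show aJ ℓ F ι (corJ ℓ F ζ s g f σ) =
      aJ ℓ F (τ.toAlgHom.restrictScalars K) (∑ i, P i) - ∑ i, P i
    rw [corJ_in T hσ, map_sum, map_sum, ← Finset.sum_sub_distrib]
    refine Finset.sum_congr rfl fun i _ => ?_
    rw [aJ_aJ]
    refine hP i τ ((tr g i)⁻¹ * σ * tr g i) (conj_mem T hσ i) (fun x => ?_)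
    show τ (ι (tr g i x)) = ι (tr g i (((tr g i)⁻¹ * σ * tr g i) x))
    have h3 : tr g i (((tr g i)⁻¹ * σ * tr g i) x) = σ (tr g i x) := by
      show tr g i ((tr g i).symm (σ (tr g i x))) = σ (tr g i x)
      rw [AlgEquiv.apply_symm_apply]
    rw [h3]
    exact hq (tr g i x)
  obtain ⟨Q, hQ⟩ := dbl (ρ := (rhoE ℓ F E).comp (MonoidHom.fst (Gal E) (Gal K)))
    (parP (S := S) T.prim T.dne T.sq ι)
    (f := fun q => aJ ℓ F ι (corJ ℓ F ζ s g f q.2)) (fun a ha b hb => by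
      show aJ ℓ F ι (corJ ℓ F ζ s g f (a.2 * b.2)) = aJ ℓ F ι (corJ ℓ F ζ s g f a.2) +
          aJ ℓ F (a.1.toAlgHom.restrictScalars K) (aJ ℓ F ι (corJ ℓ F ζ s g f b.2))
      have h6 : ι.comp a.2.toAlgHom = (a.1.toAlgHom.restrictScalars K).comp ι :=
        AlgHom.ext fun x => (ha.2 x).symm
      rw [hc _ _ ha.1 hb.1, map_add, aJ_aJ, h6, ← aJ_aJ]) (R := ∑ i, P i) key
  refine ⟨Q, fun τ σ hσ hq => ?_⟩
  show aJ ℓ F ι (ℓ • corJ ℓ F ζ s g f σ) = aJ ℓ F (τ.toAlgHom.restrictScalars K) Q - Q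
  rw [map_nsmul]
  exact hQ (τ, σ) ⟨hσ, hq⟩

/-- the corestriction of a class of order dividing `N` -/
theorem corJ_tors (T : Step ℓ S s d ζ g) {f : Gal K → MJ ℓ F (SeparableClosure K)}
    (hf : ∀ σ τ, Fixes (insert s S) σ → Fixes (insert s S) τ →
      f (σ * τ) = f σ + aJ ℓ F σ.toAlgHom (f τ)) {N : ℕ}
    (h : CobA ℓ F (insert s S) (fun σ => N • f σ)) :
    CobA ℓ F S (fun σ => N • (ℓ • corJ ℓ F ζ s g f σ)) := by
  obtain ⟨R, hR⟩ := h
  have hc := corJ_mul T hf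
  obtain ⟨Q, hQ⟩ := dbl (ρ := rhoJ ℓ F) (parG (S := S) T.prim T.dne T.sq)
    (f := fun σ => N • corJ ℓ F ζ s g f σ)
    (fun a ha b hb => by
      show N • corJ ℓ F ζ s g f (a * b) = N • corJ ℓ F ζ s g f a +
        aJ ℓ F a.toAlgHom (N • corJ ℓ F ζ s g f b)
      rw [hc _ _ ha hb, map_nsmul, smul_add])
    (R := ∑ i : ZMod ℓ, aJ ℓ F (tr g i).toAlgHom R) (fun σ hσ => by
      show N • corJ ℓ F ζ s g f σ = aJ ℓ F σ.toAlgHom (∑ i : ZMod ℓ, aJ ℓ F (tr g i).toAlgHom R) -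
        ∑ i : ZMod ℓ, aJ ℓ F (tr g i).toAlgHom R
      rw [corJ_in T hσ, Finset.smul_sum, map_sum, ← Finset.sum_sub_distrib]
      refine Finset.sum_congr rfl fun i _ => ?_
      have h2 : N • f ((tr g i)⁻¹ * σ * tr g i) =
        aJ ℓ F ((tr g i)⁻¹ * σ * tr g i).toAlgHom R - R := hR _ (conj_mem T hσ i)
      have h5 : ((tr g i).toAlgHom).comp ((tr g i)⁻¹ * σ * tr g i).toAlgHom =
          (σ.toAlgHom).comp (tr g i).toAlgHom :=
        AlgHom.ext fun x => by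
          show tr g i ((tr g i).symm (σ (tr g i x))) = σ (tr g i x)
          rw [AlgEquiv.apply_symm_apply]
      rw [← map_nsmul, h2, map_sub, aJ_aJ, h5, ← aJ_aJ])
  refine ⟨Q, fun σ hσ => ?_⟩
  show N • (ℓ • corJ ℓ F ζ s g f σ) = aJ ℓ F σ.toAlgHom Q - Q
  rw [smul_comm]
  exact hQ σ hσ

end cor2

end Pool.Agent.H571.JL
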