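import Pool.Agent.H571.JL.Gen
import Pool.Agent.R431.SG.TwistL

/-!
Number fields: 100 percent of the twists of a superelliptic curve, over all Kummer extensions of
exponent `ℓ` of `k(t)`.
-/

set_option autoImplicit false
set_option linter.all false

open Polynomial IsDedekindDomain NumberField
open scoped Classical

namespace Pool.Agent.H571.JL

open Pool.Agent.Y713.Jac (CoordRing coordMap J mapJ Gal Cochain IsCocycle IsCoboundary IsTrivialOver
  IsLocallyTrivial ShaPrimaryTrivial ShaTateTrivial)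
open Pool.Agent.Y713.SE
open Pool.Agent.R431.SG (pol)

theorem good_of {k : Type} [Field k] (K : Type) [Field K] [Algebra k[X] K] [IsFractionRing k[X] K]
    {ℓ : ℕ} (hℓ : ℓ.Prime) (hk : (ℓ : k) ≠ 0) {ζ : k} (hζ : IsPrimitiveRoot ζ ℓ) {F : K[X]}
    (hs : F.Splits) (hsep : F.Separable) (hn : ¬ ℓ ∣ F.natDegree) :
    Good ℓ (algebraMap k[X] K (C ζ)) F := by
  have hnd : F.roots.Nodup := nodup_roots hsep
  have hF0 : F ≠ 0 := hsep.ne_zero
  have hcard : F.roots.toFinset.card = F.natDegree := by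
    rw [Multiset.toFinset_card_of_nodup hnd, ← hs.natDegree_eq_card_roots]
  let eqv := F.roots.toFinset.equivFinOfCardEq hcard
  let e : Fin F.natDegree → K := fun i => (eqv.symm i : K)
  have he : Function.Injective e := Subtype.val_injective.comp eqv.symm.injective
  have hlc : F.leadingCoeff ≠ 0 := leadingCoeff_ne_zero.2 hF0
  have hfac : F = C F.leadingCoeff * ∏ i : Fin F.natDegree, (X - C (e i)) := by
    conv_lhs => rw [hs.eq_prod_roots]
    congr 1
    have h3 : (F.roots.map fun a => X - C a).prod = ∏ a ∈ F.roots.toFinset, (X - C a) := by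
      rw [Finset.prod_multiset_map_count]
      refine Finset.prod_congr rfl fun a ha => ?_
      rw [Multiset.count_eq_one_of_mem hnd (Multiset.mem_toFinset.1 ha), pow_one]
    rw [h3, ← Finset.prod_coe_sort]
    exact (Equiv.prod_comp eqv.symm (fun a : F.roots.toFinset => (X - C (a : K)))).symm
  refine ⟨F.natDegree, tDat K hℓ hk hζ (δ := F.leadingCoeff) hlc he hn, rfl, ?_⟩
  exact hfac.symm

/-- the twists over a Kummer extension -/
theorem killed_crit {k : Type} [Field k] (K : Type) [Field K] [Algebra k[X] K]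
    [IsFractionRing k[X] K] {ℓ : ℕ} (hℓ : ℓ.Prime) (hk : (ℓ : k) ≠ 0) {ζ : k}
    (hζ : IsPrimitiveRoot ζ ℓ) {F : K[X]} (hs : F.Splits) (hsep : F.Separable)
    (hn : ¬ ℓ ∣ F.natDegree) {u : ℕ} {D : Fin u → K} (hD : ∀ i, D i ≠ 0)
    {s : Fin u → SeparableClosure K} (hs' : ∀ i, s i ^ ℓ = algebraMap K (SeparableClosure K) (D i))
    {D0 : K} (hD0 : D0 ≠ 0)
    (h : ∀ e : Fin u → Fin ℓ, ShaPrimaryTrivial ℓ (C D0 * (C (∏ i, D i ^ (e i : ℕ)) * F)) k[X]) :
    ShaPrimaryKilledBy ℓ (C D0 * F) (Set.range s) k[X] (ℓ ^ (2 * u)) := by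
  haveI : Fact ℓ.Prime := ⟨hℓ⟩
  have h1 := tower (R := k[X]) (ζ := algebraMap k[X] K (C ζ)) hs' hD Finset.univ (C D0 * F)
    ((good_of K hℓ hk hζ hs hsep hn).tw hD0) (fun e he => by
      have h2 := h (fun i => ⟨e i, he i⟩)
      have h3 : C (∏ i, D i ^ e i) * (C D0 * F) = C D0 * (C (∏ i, D i ^ e i) * F) := by ring
      rw [h3]
      exact h2)
  rw [Finset.card_univ, Fintype.card_fin, Finset.coe_univ, Set.image_univ] at h1
  exact killed_of h1

theorem sep_mul {K : Type} [Field K] {F : K[X]} {c : K} (hc : c ≠ 0) (hsep : F.Separable) :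
    (C c * F).Separable :=
  Polynomial.Separable.unit_mul (isUnit_C.2 (Ne.isUnit hc)) hsep

theorem almost_all {k : Type} [Field k] [NumberField k] {J : Type} [Fintype J]
    (B : Module.Basis J ℤ (𝓞 k)) {ℓ : ℕ} (hℓ : ℓ.Prime) {ζ : k} (hζ : IsPrimitiveRoot ζ ℓ)
    {F : (RatFunc k)[X]} (hs : F.Splits) (hsep : F.Separable)
    (hdeg : ¬ ℓ ∣ F.natDegree) {n : ℕ} (hn : 2 ≤ n) (hn3 : n = 2 → ℓ ≠ 2) {u : ℕ}
    {s : Fin u → SeparableClosure (RatFunc k)} (hs0 : ∀ i, s i ≠ 0)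
    (hs' : ∀ i, ∃ D : RatFunc k, s i ^ ℓ = algebraMap (RatFunc k) _ D) {η : ℝ} (hη : 0 < η) :
    ∃ H0 : ℕ, ∀ H : ℕ, H0 ≤ H →
      (({c : Fin (n + 1) → 𝓞 k | (∀ i j, |B.repr (c i) j| ≤ (H : ℤ)) ∧
        ¬ ShaPrimaryKilledBy ℓ (C (algebraMap k[X] (RatFunc k)
          (pol fun j => algebraMap (𝓞 k) k (c j))) * F) (Set.range s) k[X]
            (ℓ ^ (2 * u))}.ncard : ℕ) : ℝ) ≤
        η * (2 * H + 1) ^ ((n + 1) * Fintype.card J) := by
  choose D hD using hs'
  have hD0 : ∀ i, D i ≠ 0 := by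
    intro i h
    have h1 := hD i
    rw [h, map_zero] at h1
    exact hs0 i (pow_eq_zero_iff hℓ.ne_zero |>.1 h1)
  let No : Option (Fin u → Fin ℓ) → (Fin (n + 1) → 𝓞 k) → Prop := fun S c =>
    match S with
    | none => c = 0
    | some e => ¬ ShaPrimaryTrivial ℓ (C (algebraMap k[X] (RatFunc k)
          (pol fun j => algebraMap (𝓞 k) k (c j))) * (C (∏ i, D i ^ (e i : ℕ)) * F)) k[X]
  have hdens : ∀ S ∈ (Finset.univ : Finset (Option (Fin u → Fin ℓ))), ∀ η : ℝ, 0 < η →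
      ∃ H0 : ℕ, ∀ H : ℕ, H0 ≤ H →
      (({c : Fin (n + 1) → 𝓞 k | (∀ i j, |B.repr (c i) j| ≤ (H : ℤ)) ∧ No S c}.ncard : ℕ) : ℝ) ≤
        η * (2 * H + 1) ^ (Fintype.card (Fin (n + 1)) * Fintype.card J) := by
    intro S _ η' hη'
    rcases S with _ | e
    · obtain ⟨H0, hH0⟩ := exists_nat_gt (1 / η')
      have hJ : Nonempty J := by
        by_contra hJ
        rw [not_nonempty_iff] at hJ
        have h1 : Subsingleton (𝓞 k) := by
          refine ⟨fun a b => B.repr.injective ?_⟩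
          ext j
          exact hJ.elim j
        exact one_ne_zero (Subsingleton.elim (1 : 𝓞 k) 0)
      refine ⟨H0, fun H hH => ?_⟩
      have h1 : {c : Fin (n + 1) → 𝓞 k | (∀ i j, |B.repr (c i) j| ≤ (H : ℤ)) ∧
          No none c}.ncard ≤ ({0} : Set (Fin (n + 1) → 𝓞 k)).ncard := by
        refine Set.ncard_le_ncard ?_ (Set.finite_singleton _)
        rintro c ⟨-, hc⟩
        exact hc
      rw [Set.ncard_singleton] at h1
      have h2 : ((({c : Fin (n + 1) → 𝓞 k | (∀ i j, |B.repr (c i) j| ≤ (H : ℤ)) ∧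
          No none c}.ncard : ℕ)) : ℝ) ≤ 1 := by exact_mod_cast h1
      refine h2.trans ?_
      have h3 : (1 : ℝ) / η' < H := lt_of_lt_of_le hH0 (by exact_mod_cast hH)
      have h4 : 1 < η' * H := by
        rw [div_lt_iff₀ hη'] at h3
        linarith
      have h5 : (2 * (H : ℝ) + 1) ≤
          (2 * (H : ℝ) + 1) ^ (Fintype.card (Fin (n + 1)) * Fintype.card J) := by
        refine le_self_pow₀ ?_ ?_
        · have : (0 : ℝ) ≤ H := Nat.cast_nonneg H
          linarith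
        · rw [Fintype.card_fin]
          exact Nat.mul_ne_zero (Nat.succ_ne_zero n) Fintype.card_ne_zero
      have h6 : η' * (H : ℝ) ≤ η' * (2 * (H : ℝ) + 1) ^
          (Fintype.card (Fin (n + 1)) * Fintype.card J) := by
        refine mul_le_mul_of_nonneg_left ?_ hη'.le
        refine le_trans ?_ h5
        have : (0 : ℝ) ≤ H := Nat.cast_nonneg H
        linarith
      linarith
    · have hp : (∏ i, D i ^ (e i : ℕ)) ≠ 0 :=
        Finset.prod_ne_zero_iff.2 fun i _ => pow_ne_zero _ (hD0 i)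
      obtain ⟨H0, hH0⟩ := Pool.Agent.R431.SG.twists_mainL B hℓ hζ
        (F := C (∏ i, D i ^ (e i : ℕ)) * F) ((Polynomial.Splits.C _).mul hs)
        (sep_mul hp hsep) (by rw [natDegree_C_mul hp]; exact hdeg) hn hn3 hη'
      refine ⟨H0, fun H hH => ?_⟩
      rw [Fintype.card_fin]
      exact hH0 H hH
  obtain ⟨H0, hH0⟩ := Pool.Agent.R431.SG.combine B Finset.univ No hdens hη
  refine ⟨H0, fun H hH => ?_⟩
  have hfin := hH0 H hH {c : Fin (n + 1) → 𝓞 k | (∀ i j, |B.repr (c i) j| ≤ (H : ℤ)) ∧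
        ¬ ShaPrimaryKilledBy ℓ (C (algebraMap k[X] (RatFunc k)
          (pol fun j => algebraMap (𝓞 k) k (c j))) * F) (Set.range s) k[X] (ℓ ^ (2 * u))} ?_
  · rw [Fintype.card_fin] at hfin
    exact hfin
  rintro c ⟨hbox, hnot⟩
  refine ⟨hbox, ?_⟩
  by_contra hall
  push Not at hall
  apply hnot
  have hc0 : c ≠ 0 := hall none (Finset.mem_univ _)
  have hpol : (algebraMap k[X] (RatFunc k) (pol fun j => algebraMap (𝓞 k) k (c j))) ≠ 0 := by
    intro h0
    rw [map_eq_zero_iff _ (IsFractionRing.injective k[X] (RatFunc k))] at h0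
    apply hc0
    funext j
    have h1 := Pool.Agent.R431.SG.pol_coeff (fun j => algebraMap (𝓞 k) k (c j)) j
    rw [h0, coeff_zero] at h1
    have h2 : algebraMap (𝓞 k) k (c j) = algebraMap (𝓞 k) k 0 := by rw [map_zero]; exact h1.symm
    exact FaithfulSMul.algebraMap_injective _ _ h2
  refine killed_crit (RatFunc k) hℓ (by exact_mod_cast hℓ.ne_zero) hζ hs hsep hdeg hD0 hD hpol ?_
  intro e
  have h1 := hall (some e) (Finset.mem_univ _)
  exact not_not.1 h1

end Pool.Agent.H571.JL
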