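import Pool.Agent.H571.JL.Stp

/-!
Kummer extensions of exponent `ℓ` of the base field: the general theorem.
-/

set_option autoImplicit false
set_option linter.all false

open Polynomial IsDedekindDomain

namespace Pool.Agent.H571.JL

open Pool.Agent.Y713.Jac (CoordRing coordMap J mapJ Gal Cochain IsCocycle IsCoboundary IsTrivialOver
  IsLocallyTrivial ShaPrimaryTrivial ShaTateTrivial)

section gen

variable {ℓ : ℕ} [Fact ℓ.Prime] {K : Type} [Field K] {F : K[X]} {R : Type} [CommRing R]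
  [IsDedekindDomain R] [Algebra R K] [IsFractionRing R K]

theorem coc_iff {S : Set (SeparableClosure K)} (f : Cochain ℓ F) :
    CocA ℓ F S (fun σ => Additive.ofMul (f σ)) ↔ IsCocycleOn ℓ F S f := Iff.rfl

theorem cob_iff {S : Set (SeparableClosure K)} (f : Cochain ℓ F) :
    CobA ℓ F S (fun σ => Additive.ofMul (f σ)) ↔ IsCoboundaryOn ℓ F S f := Iff.rfl

theorem smul_eq (N : ℕ) (f : Cochain ℓ F) :
    (fun σ => N • (Additive.ofMul (f σ) : MJ ℓ F (SeparableClosure K))) =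
      fun σ => Additive.ofMul (f σ ^ N) := funext fun σ => (ofMul_pow N (f σ)).symm

theorem aJ_ofMul {M M' : Type} [Field M] [Algebra K M] [Field M'] [Algebra K M'] (φ : M →ₐ[K] M')
    (x : J ℓ F M) : aJ ℓ F φ (Additive.ofMul x) = Additive.ofMul (mapJ ℓ F φ x) := rfl

theorem ofMul_sub {M : Type} [Field M] [Algebra K M] (x y : J ℓ F M) :
    (Additive.ofMul (x / y) : MJ ℓ F M) = Additive.ofMul x - Additive.ofMul y := rfl

theorem loc_of {S : Set (SeparableClosure K)} {E : Type} [Field E] [Algebra K E]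
    (f : Cochain ℓ F) (h : IsTrivialAbove ℓ F S E f) :
    LocA ℓ F S E (fun σ => Additive.ofMul (f σ)) := by
  intro ι
  obtain ⟨P, hP⟩ := h ι
  refine ⟨Additive.ofMul P, fun τ σ hσ hq => ?_⟩
  have h3 : mapJ ℓ F ι (f σ) = mapJ ℓ F (τ.toAlgHom.restrictScalars K) P / P := hP τ σ hσ hq
  rw [aJ_ofMul, aJ_ofMul, h3, ofMul_sub]

theorem killed_of {S : Set (SeparableClosure K)} {N : ℕ} (h : KilledA ℓ F S R N) :
    ShaPrimaryKilledBy ℓ F S R N := by
  intro f m h1 h2 h3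
  have h4 := h (fun σ => Additive.ofMul (f σ)) m ((coc_iff f).2 h1) (fun v => loc_of f (h2 v))
    (by rw [smul_eq]; exact (cob_iff _).2 h3)
  rw [smul_eq] at h4
  exact (cob_iff _).1 h4

theorem fixes_empty (σ : Gal K) : Fixes (∅ : Set (SeparableClosure K)) σ :=
  fun x hx => absurd hx (Set.notMem_empty x)

theorem base (h : ShaPrimaryTrivial ℓ F R) : KilledA ℓ F ∅ R (ℓ ^ 0) := by
  intro f m hc hl ht
  obtain ⟨f', rfl⟩ : ∃ f' : Cochain ℓ F, (fun σ => Additive.ofMul (f' σ)) = f :=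
    ⟨fun σ => (f σ).toMul, rfl⟩
  rw [smul_eq] at ht ⊢
  have ht' := (cob_iff _).1 ht
  have h1 : IsCocycle ℓ F f' :=
    ⟨hc.1, fun σ τ => ((coc_iff f').1 hc).2 σ τ (fixes_empty σ) (fixes_empty τ)⟩
  have h2 : IsLocallyTrivial ℓ F R f' := by
    intro v
    obtain ⟨ι⟩ : Nonempty (SeparableClosure K →ₐ[K] SeparableClosure (v.adicCompletion K)) :=
      ⟨IsSepClosed.lift⟩
    obtain ⟨P, hP⟩ := hl v ι
    obtain ⟨P', rfl⟩ : ∃ P', Additive.ofMul P' = P := ⟨P.toMul, rfl⟩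
    refine ⟨ι, P', fun τ σ hq => ?_⟩
    have h3 := hP τ σ (fixes_empty σ) hq
    rw [aJ_ofMul, aJ_ofMul, ← ofMul_sub] at h3
    exact Additive.ofMul.injective h3
  have h3 : IsCoboundary ℓ F (fun σ => f' σ ^ ℓ ^ m) := by
    obtain ⟨Q, hQ⟩ := ht'
    exact ⟨Q, fun σ => hQ σ (fixes_empty σ)⟩
  obtain ⟨Q, hQ⟩ := h f' m h1 h2 h3
  refine (cob_iff (S := ∅) (fun σ => f' σ ^ ℓ ^ 0)).2 ⟨Q, fun σ _ => ?_⟩
  show f' σ ^ ℓ ^ 0 = _
  rw [pow_zero, pow_one]
  exact hQ σ

/-- The definitions depend only on the automorphisms which fix `S`. -/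
theorem killed_congr {S S' : Set (SeparableClosure K)} (hS : ∀ σ : Gal K, Fixes S σ ↔ Fixes S' σ)
    {N : ℕ} (h : KilledA ℓ F S R N) : KilledA ℓ F S' R N := by
  intro f m hc hl ht
  obtain ⟨Q0, hQ0⟩ := ht
  obtain ⟨Q, hQ⟩ := h f m ⟨hc.1, fun σ τ hσ hτ => hc.2 σ τ ((hS σ).1 hσ) ((hS τ).1 hτ)⟩
    (fun v ι => by
      obtain ⟨P, hP⟩ := hl v ι
      exact ⟨P, fun τ σ hσ hq => hP τ σ ((hS σ).1 hσ) hq⟩)
    ⟨Q0, fun σ hσ => hQ0 σ ((hS σ).1 hσ)⟩
  exact ⟨Q, fun σ hσ => hQ σ ((hS σ).2 hσ)⟩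

theorem killed_mul {S : Set (SeparableClosure K)} {N M : ℕ} (h : KilledA ℓ F S R N) :
    KilledA ℓ F S R (N * M) := by
  intro f m hc hl ht
  obtain ⟨Q, hQ⟩ := h f m hc hl ht
  refine ⟨M • Q, fun σ hσ => ?_⟩
  have h1 : N • f σ = aJ ℓ F σ.toAlgHom Q - Q := hQ σ hσ
  show (N * M) • f σ = _
  rw [mul_comm, mul_smul, h1, map_nsmul, smul_sub]

/-- one more `ℓ`-th root -/
theorem step' {S : Set (SeparableClosure K)} {s : SeparableClosure K} {d ζ : K}
    (hF : Good ℓ ζ F) (hd : d ≠ 0) (hs : s ^ ℓ = algebraMap K (SeparableClosure K) d) {a : ℕ}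
    (h : ∀ i : ZMod ℓ, KilledA ℓ (C (d ^ i.val) * F) S R (ℓ ^ a)) :
    KilledA ℓ F (insert s S) R (ℓ ^ (a + 2)) := by
  have hℓ : ℓ.Prime := Fact.out
  have hζ : IsPrimitiveRoot ζ ℓ := by
    obtain ⟨n, D, rfl, rfl⟩ := hF
    exact D.hζ
  by_cases hex : ∃ g0 : Gal K, Fixes S g0 ∧ chi ℓ ζ s g0 ≠ 0
  · obtain ⟨g0, h1, h2⟩ := hex
    have hP := parG (S := S) hζ hd hs
    have h3 : Fixes S (g0 ^ (chi ℓ ζ s g0)⁻¹.val) := (fixS S).pow_mem h1 _
    refine step (g := g0 ^ (chi ℓ ζ s g0)⁻¹.val) ⟨hℓ, hζ, hd, hs, h3, ?_⟩ hF h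
    have h4 : chi ℓ ζ s (g0 ^ (chi ℓ ζ s g0)⁻¹.val) = 1 := by
      rw [hP.pow h1, ZMod.natCast_val, ZMod.cast_id, inv_mul_cancel₀ h2]
    have h5 := chi_spec hζ hd hs (g0 ^ (chi ℓ ζ s g0)⁻¹.val)
    rw [h4] at h5
    unfold zi at h5
    have h6 : (1 : ZMod ℓ).val = 1 := by
      have : Fact (1 < ℓ) := ⟨hℓ.one_lt⟩
      exact ZMod.val_one ℓ
    rw [h6, pow_one] at h5
    exact h5
  · push Not at hex
    have h1 := h 0
    have h2 : C (d ^ (0 : ZMod ℓ).val) * F = F := by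
      rw [ZMod.val_zero, pow_zero, C_1, one_mul]
    rw [h2] at h1
    rw [pow_add]
    refine killed_mul (killed_congr (fun σ => ?_) h1)
    rw [fixes_insert]
    exact ⟨fun hσ => ⟨hσ, (chi_zero hζ hd hs σ).1 (hex σ hσ)⟩, fun hσ => hσ.1⟩

/-- **Kummer extensions of exponent `ℓ`.** If the locally trivial classes of `ℓ`-power order for the
twists of `J` by all the products of powers of the `D i`, `i ∈ T`, are zero, the locally trivial classes
of `ℓ`-power order over the extension generated by `ℓ`-th roots of the `D i`, `i ∈ T`, are killed by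
`ℓ ^ (2 u)`, where `u` is the number of elements of `T`. -/
theorem tower {I : Type} {s : I → SeparableClosure K} {D : I → K} {ζ : K}
    (hs : ∀ i, s i ^ ℓ = algebraMap K (SeparableClosure K) (D i)) (hD : ∀ i, D i ≠ 0)
    (T : Finset I) : ∀ F : K[X], Good ℓ ζ F →
      (∀ e : I → ℕ, (∀ i, e i < ℓ) → ShaPrimaryTrivial ℓ (C (∏ i ∈ T, D i ^ e i) * F) R) →
      KilledA ℓ F (s '' (T : Set I)) R (ℓ ^ (2 * T.card)) := by
  classical
  induction T using Finset.induction_on with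
  | empty =>
    intro F hF h
    have h1 := h (fun _ => 0) (fun _ => (Fact.out : ℓ.Prime).pos)
    rw [Finset.prod_empty, C_1, one_mul] at h1
    rw [Finset.coe_empty, Set.image_empty, Finset.card_empty, mul_zero]
    exact base h1
  | insert a T ha ih =>
    intro F hF h
    rw [Finset.coe_insert, Set.image_insert_eq, Finset.card_insert_of_notMem ha, mul_add, mul_one]
    refine step' hF (hD a) (hs a) fun i => ih _ (hF.tw (pow_ne_zero _ (hD a))) fun e he => ?_
    have h1 := h (Function.update e a i.val) (fun j => by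
      by_cases hj : j = a
      · subst hj
        rw [Function.update_self]
        exact ZMod.val_lt i
      · rw [Function.update_of_ne hj]
        exact he j)
    rw [Finset.prod_insert ha, Function.update_self] at h1
    have h2 : ∏ j ∈ T, D j ^ Function.update e a i.val j = ∏ j ∈ T, D j ^ e j := by
      refine Finset.prod_congr rfl fun j hj => ?_
      rw [Function.update_of_ne]
      rintro rfl
      exact ha hj
    rw [h2] at h1
    have h3 : C (∏ j ∈ T, D j ^ e j) * (C (D a ^ i.val) * F) =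
        C (D a ^ i.val * ∏ j ∈ T, D j ^ e j) * F := by
      rw [C_mul (a := D a ^ i.val)]
      ring
    rw [h3]
    exact h1

end gen

end Pool.Agent.H571.JL
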