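import Pool.Agent.Y713.SE.Phi
import Pool.Agent.Y713.SE.StmT
import Pool.Agent.H571.JL.Defs

/-!
The isomorphism of the Jacobian of a superelliptic curve with the Jacobian of its twists, over a field
which contains the `ℓ`-th root; the covering automorphism.
-/

set_option autoImplicit false
set_option linter.all false

open Polynomial IsDedekindDomain

namespace Pool.Agent.H571.JL

open Pool.Agent.Y713.Jac (CoordRing coordMap J mapJ Gal Cochain)
open Pool.Agent.Y713.SE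

section mu

/-- The ring `L[x, y] / (y ^ ℓ - f)`. -/
abbrev RL (ℓ : ℕ) {L : Type} [Field L] (f : L[X]) : Type := AdjoinRoot (X ^ ℓ - C f : L[X][X])

variable {ℓ : ℕ} {L : Type} [Field L] {f g h : L[X]}

theorem root_pow (f : L[X]) : (AdjoinRoot.root (X ^ ℓ - C f : L[X][X])) ^ ℓ =
    AdjoinRoot.of (X ^ ℓ - C f : L[X][X]) f := by
  have h := AdjoinRoot.eval₂_root (X ^ ℓ - C f : L[X][X])
  rw [eval₂_sub, eval₂_pow, eval₂_X, eval₂_C, sub_eq_zero] at h
  exact h

/-- the homomorphism `y ↦ c y` -/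
noncomputable def mu (c : L) (e : g = C (c ^ ℓ) * f) : RL ℓ g →+* RL ℓ f :=
  AdjoinRoot.lift (AdjoinRoot.of (X ^ ℓ - C f : L[X][X]))
    (AdjoinRoot.of (X ^ ℓ - C f : L[X][X]) (C c) * AdjoinRoot.root _) (by
    rw [eval₂_sub, eval₂_pow, eval₂_X, eval₂_C, mul_pow, root_pow, e, map_mul, ← map_pow, ← C_pow,
      sub_self])

theorem mu_of (c : L) (e : g = C (c ^ ℓ) * f) (a : L[X]) :
    mu c e (AdjoinRoot.of _ a) = AdjoinRoot.of _ a := AdjoinRoot.lift_of _

theorem mu_root (c : L) (e : g = C (c ^ ℓ) * f) :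
    mu c e (AdjoinRoot.root _) = AdjoinRoot.of _ (C c) * AdjoinRoot.root _ := AdjoinRoot.lift_root _

theorem mu_mu {b c d : L} (e : g = C (b ^ ℓ) * f) (e' : h = C (c ^ ℓ) * g) (e'' : h = C (d ^ ℓ) * f)
    (hd : d = b * c) : (mu b e).comp (mu c e') = mu d e'' := by
  refine AdjoinRoot.ringHom_ext (RingHom.ext fun a => ?_) ?_
  · show mu b e (mu c e' (AdjoinRoot.of _ a)) = mu d e'' (AdjoinRoot.of _ a)
    rw [mu_of, mu_of, mu_of]
  · show mu b e (mu c e' (AdjoinRoot.root _)) = mu d e'' (AdjoinRoot.root _)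
    rw [mu_root, map_mul, mu_of, mu_root, mu_root, hd, C_mul, map_mul]
    ring

theorem mu_one (e : f = C (1 ^ ℓ) * f) : mu 1 e = RingHom.id _ := by
  refine AdjoinRoot.ringHom_ext (RingHom.ext fun a => ?_) ?_
  · exact mu_of 1 e a
  · rw [mu_root, C_1, map_one, one_mul]
    rfl

/-- the homomorphism of Picard groups -/
noncomputable def pm (c : L) (e : g = C (c ^ ℓ) * f) :
    CommRing.Pic (RL ℓ g) →* CommRing.Pic (RL ℓ f) :=
  CommRing.Pic.mapRingHom (mu c e)

theorem pm_pm {b c d : L} (e : g = C (b ^ ℓ) * f) (e' : h = C (c ^ ℓ) * g)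
    (e'' : h = C (d ^ ℓ) * f) (hd : d = b * c) (x : CommRing.Pic (RL ℓ h)) :
    pm b e (pm c e' x) = pm d e'' x := by
  unfold pm
  rw [CommRing.Pic.mapRingHom_mapRingHom, mu_mu e e' e'' hd]

theorem pm_one {c : L} (hc : c = 1) (e : f = C (c ^ ℓ) * f) (x : CommRing.Pic (RL ℓ f)) :
    pm c e x = x := by
  subst hc
  unfold pm
  rw [mu_one, CommRing.Pic.mapRingHom_id_apply]

end mu

section base

variable {ℓ : ℕ} {K : Type} [Field K] {F : K[X]} {L L' L'' : Type} [Field L] [Algebra K L]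
  [Field L'] [Algebra K L'] [Field L''] [Algebra K L'']

theorem cm_of (φ : L →ₐ[K] L') (a : L[X]) :
    coordMap ℓ F φ (AdjoinRoot.of _ a) = AdjoinRoot.of _ (a.map (φ : L →+* L')) :=
  AdjoinRoot.map_of (mapRingHom φ.toRingHom) _ _ _ a

theorem cm_root (φ : L →ₐ[K] L') :
    coordMap ℓ F φ (AdjoinRoot.root _) = AdjoinRoot.root _ := AdjoinRoot.map_root _ _ _ _

theorem mapJ_mapJ (φ : L →ₐ[K] L') (ψ : L' →ₐ[K] L'') (x : J ℓ F L) :
    mapJ ℓ F ψ (mapJ ℓ F φ x) = mapJ ℓ F (ψ.comp φ) x := by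
  unfold mapJ
  rw [CommRing.Pic.mapRingHom_mapRingHom]
  congr 2
  refine AdjoinRoot.ringHom_ext (RingHom.ext fun a => ?_) ?_
  · show coordMap ℓ F ψ (coordMap ℓ F φ (AdjoinRoot.of _ a)) = coordMap ℓ F (ψ.comp φ) (AdjoinRoot.of _ a)
    rw [cm_of, cm_of, cm_of, Polynomial.map_map]
    rfl
  · show coordMap ℓ F ψ (coordMap ℓ F φ (AdjoinRoot.root _)) = coordMap ℓ F (ψ.comp φ) (AdjoinRoot.root _)
    rw [cm_root, cm_root, cm_root]

theorem mapJ_id (x : J ℓ F L) : mapJ ℓ F (AlgHom.id K L) x = x := by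
  unfold mapJ
  have : coordMap ℓ F (AlgHom.id K L) = RingHom.id _ := by
    refine AdjoinRoot.ringHom_ext (RingHom.ext fun a => ?_) ?_
    · show coordMap ℓ F (AlgHom.id K L) (AdjoinRoot.of _ a) = AdjoinRoot.of _ a
      rw [cm_of]
      congr 1
      exact Polynomial.map_id
    · rw [cm_root]
      rfl
  rw [this, CommRing.Pic.mapRingHom_id_apply]

theorem mu_cm {G : K[X]} (φ : L →ₐ[K] L') {c : L} {c' : L'} (hc : φ c = c')
    (e : G.map (algebraMap K L) = C (c ^ ℓ) * F.map (algebraMap K L))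
    (e' : G.map (algebraMap K L') = C (c' ^ ℓ) * F.map (algebraMap K L')) (x : J ℓ G L) :
    mapJ ℓ F φ (pm c e x) = pm c' e' (mapJ ℓ G φ x) := by
  subst hc
  unfold mapJ pm
  rw [CommRing.Pic.mapRingHom_mapRingHom, CommRing.Pic.mapRingHom_mapRingHom]
  congr 2
  refine AdjoinRoot.ringHom_ext (RingHom.ext fun a => ?_) ?_
  · show coordMap ℓ F φ (mu c e (AdjoinRoot.of _ a)) = mu (φ c) e' (coordMap ℓ G φ (AdjoinRoot.of _ a))
    rw [mu_of, cm_of, cm_of, mu_of]
  · show coordMap ℓ F φ (mu c e (AdjoinRoot.root _)) = mu (φ c) e' (coordMap ℓ G φ (AdjoinRoot.root _))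
    rw [mu_root, map_mul, cm_of, cm_root, cm_root, mu_root, Polynomial.map_C]
    rfl

end base

section aut

variable {ℓ n : ℕ} {K : Type} [Field K] (D : Dat ℓ n K) (L : Type) [Field L] [Algebra K L]

/-- the covering automorphism -/
theorem pm_zeta {c : L} (hc : c = algebraMap K L D.ζ)
    (e : D.f.map (algebraMap K L) = C (c ^ ℓ) * D.f.map (algebraMap K L))
    (a : ClassGroup (D.base L).A) : pm c e (D.Th L a) = D.Th L ((D.base L).sC a) := by
  subst hc
  have hp : pc ((D.base L).sC a) =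
    CommRing.Pic.mapRingHom ((D.base L).s 1 : (D.base L).A →+* (D.base L).A) (pc a) :=
    pc_nat _ _ a
  show CommRing.Pic.mapRingHom (mu (algebraMap K L D.ζ) e)
    (CommRing.Pic.mapRingHom (D.cE L : (D.base L).A →+* CoordRing ℓ D.f L) (pc a)) =
    CommRing.Pic.mapRingHom (D.cE L : (D.base L).A →+* CoordRing ℓ D.f L)
      (pc ((D.base L).sC a))
  rw [hp, CommRing.Pic.mapRingHom_mapRingHom, CommRing.Pic.mapRingHom_mapRingHom]
  congr 2
  have e1 : ∀ g, D.cE L (AdjoinRoot.of _ g) = AdjoinRoot.of _ g := fun g => crE_of _ _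
  have e2 : D.cE L (AdjoinRoot.root _) = AdjoinRoot.root _ := crE_root _
  refine AdjoinRoot.ringHom_ext (RingHom.ext fun g => ?_) ?_
  · show mu (algebraMap K L D.ζ) e (D.cE L (AdjoinRoot.of _ g)) =
      D.cE L ((D.base L).s 1 (AdjoinRoot.of _ g))
    have e3 : (D.base L).s 1 (AdjoinRoot.of _ g) = AdjoinRoot.of _ g :=
      ((D.base L).s 1).commutes g
    rw [e3, e1, mu_of]
  · show mu (algebraMap K L D.ζ) e (D.cE L (AdjoinRoot.root _)) =
      D.cE L ((D.base L).s 1 (AdjoinRoot.root _))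
    have e3 : (D.base L).s 1 (AdjoinRoot.root _) =
        AdjoinRoot.of _ (C ((D.base L).ζ ^ 1)) * AdjoinRoot.root _ := (D.base L).s_y 1
    rw [e3, map_mul, e1, e2, mu_root, pow_one, Dat.base_ζ]

end aut

end Pool.Agent.H571.JL
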