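import Pool.Agent.H571.JL.Cor2

/-!
From `K(S)` to `K(S, s)`, `s ^ ℓ` in `K`: the locally trivial classes over `K(S, s)` are, up to a power
of `ℓ`, sums of restrictions of corestrictions, for the Jacobian and for its twists.
-/

set_option autoImplicit false
set_option linter.all false

open Polynomial IsDedekindDomain

namespace Pool.Agent.H571.JL

open Pool.Agent.Y713.Jac (CoordRing coordMap J mapJ Gal Cochain)

section sums

variable {ℓ : ℕ} [Fact ℓ.Prime] {K : Type} [Field K] {F : K[X]} {L : Type} [Field L] [Algebra K L]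
  {ζ : K}

theorem sum_zp' (hF : Good ℓ ζ F) (x : MJ ℓ F L) :
    ∑ j ∈ Finset.range ℓ, zp F (pow_zeta (zeta_pow hF L) j) x = 0 := by
  have h := congrArg Additive.ofMul (sum_zp hF (L := L) x.toMul)
  rw [ofMul_prod] at h
  exact h

theorem sum_val (hF : Good ℓ ζ F) (x : MJ ℓ F L) :
    ∑ i : ZMod ℓ, zp F (pow_zeta (zeta_pow hF L) i.val) x = 0 := by
  rw [← sum_zp' hF x]
  refine Finset.sum_nbij' (fun i => i.val) (fun k => (k : ZMod ℓ)) ?_ ?_ ?_ ?_ ?_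
  · intro i _
    exact Finset.mem_range.2 (ZMod.val_lt i)
  · intro k _
    exact Finset.mem_univ _
  · intro i _
    exact ZMod.natCast_zmod_val i
  · intro k hk
    exact ZMod.val_natCast_of_lt (Finset.mem_range.1 hk)
  · intro i _
    rfl

theorem sum_mul (hF : Good ℓ ζ F) {j : ZMod ℓ} (hj : j ≠ 0) (x : MJ ℓ F L) :
    ∑ i : ZMod ℓ, zp F (pow_zeta (zeta_pow hF L) (j.val * i.val)) x = 0 := by
  rw [← sum_val hF x, ← Equiv.sum_comp (Equiv.mulLeft₀ j hj)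
    (fun i : ZMod ℓ => zp F (pow_zeta (zeta_pow hF L) i.val) x)]
  refine Finset.sum_congr rfl fun i _ => ?_
  refine zp_congr _ _ ?_ x
  show algebraMap K L ζ ^ (j.val * i.val) = algebraMap K L ζ ^ (j * i).val
  rw [ZMod.val_mul]
  exact pow_eq_pow_mod _ (zeta_pow hF L)

theorem sum_all (hF : Good ℓ ζ F) (c : ZMod ℓ → MJ ℓ F L) :
    ∑ i : ZMod ℓ, ∑ j : ZMod ℓ, zp F (pow_zeta (zeta_pow hF L) (j.val * i.val)) (c j) =
      ℓ • c 0 := by
  rw [Finset.sum_comm, Finset.sum_eq_single 0]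
  · rw [Finset.sum_congr rfl fun i _ => zp_one (F := F) _ (by
      rw [ZMod.val_zero, zero_mul, pow_zero]) (c 0)]
    rw [Finset.sum_const, Finset.card_univ, ZMod.card]
  · intro j _ hj
    exact sum_mul hF hj (c j)
  · intro h
    exact absurd (Finset.mem_univ _) h

end sums

section stp

variable {ℓ : ℕ} [Fact ℓ.Prime] {K : Type} [Field K] {F : K[X]} {S : Set (SeparableClosure K)}
  {s : SeparableClosure K} {d ζ : K} {g : Gal K}

/-- the additive form of `ShaPrimaryKilledBy` -/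
def KilledA (ℓ : ℕ) (F : K[X]) (S : Set (SeparableClosure K)) (R : Type) [CommRing R]
    [IsDedekindDomain R] [Algebra R K] [IsFractionRing R K] (N : ℕ) : Prop :=
  ∀ (f : Gal K → MJ ℓ F (SeparableClosure K)) (m : ℕ), CocA ℓ F S f →
    (∀ v : HeightOneSpectrum R, LocA ℓ F S (v.adicCompletion K) f) →
    CobA ℓ F S (fun σ => (ℓ ^ m) • f σ) → CobA ℓ F S (fun σ => N • f σ)

theorem tw_coc (hℓ : ℓ ≠ 0) {e : K} (he : e ≠ 0) {u : SeparableClosure K}
    (hu : u ^ ℓ = algebraMap K (SeparableClosure K) e) (hS : ∀ σ, Fixes S σ → σ u = u)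
    {f : Gal K → MJ ℓ F (SeparableClosure K)} (hf : CocA ℓ F S f) :
    CocA ℓ (C e * F) S (fun σ => twA F hℓ he hu (f σ)) :=
  ⟨hf.1.comp _, fun σ τ hσ hτ => by
    show twA F hℓ he hu (f (σ * τ)) = twA F hℓ he hu (f σ) +
      aJ ℓ (C e * F) σ.toAlgHom (twA F hℓ he hu (f τ))
    rw [hf.2 σ τ hσ hτ, map_add, twA_act hℓ he σ.toAlgHom hu hu (hS σ hσ)]⟩

theorem tw_cob (hℓ : ℓ ≠ 0) {e : K} (he : e ≠ 0) {u : SeparableClosure K}
    (hu : u ^ ℓ = algebraMap K (SeparableClosure K) e) (hS : ∀ σ, Fixes S σ → σ u = u) {N : ℕ}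
    {f : Gal K → MJ ℓ F (SeparableClosure K)} (hf : CobA ℓ F S (fun σ => N • f σ)) :
    CobA ℓ (C e * F) S (fun σ => N • twA F hℓ he hu (f σ)) := by
  obtain ⟨Q, hQ⟩ := hf
  refine ⟨twA F hℓ he hu Q, fun σ hσ => ?_⟩
  have h1 : N • f σ = aJ ℓ F σ.toAlgHom Q - Q := hQ σ hσ
  show N • twA F hℓ he hu (f σ) = _
  rw [← map_nsmul, h1, map_sub, twA_act hℓ he σ.toAlgHom hu hu (hS σ hσ)]

theorem tw_loc (hℓ : ℓ ≠ 0) {e : K} (he : e ≠ 0) {u : SeparableClosure K}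
    (hu : u ^ ℓ = algebraMap K (SeparableClosure K) e) (hS : ∀ σ, Fixes S σ → σ u = u) {E : Type}
    [Field E] [Algebra K E]
    {f : Gal K → MJ ℓ F (SeparableClosure K)} (hf : LocA ℓ F S E f) :
    LocA ℓ (C e * F) S E (fun σ => twA F hℓ he hu (f σ)) := by
  intro ι
  obtain ⟨P, hP⟩ := hf ι
  have hu' : (ι u) ^ ℓ = algebraMap K (SeparableClosure E) e := by
    rw [← map_pow, hu, AlgHom.commutes]
  refine ⟨twA F hℓ he hu' P, fun τ σ hσ hq => ?_⟩
  have h1 : (τ.toAlgHom.restrictScalars K) (ι u) = ι u := by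
    show τ (ι u) = ι u
    rw [hq, hS σ hσ]
  rw [twA_act hℓ he ι hu hu' rfl, hP τ σ hσ hq, map_sub,
    twA_act hℓ he (τ.toAlgHom.restrictScalars K) hu' hu' h1]

theorem tr_s (T : Step ℓ S s d ζ g) (j : ZMod ℓ) :
    tr g j s = ((algebraMap K (SeparableClosure K) ζ)⁻¹) ^ j.val * s := by
  have h1 := chi_spec T.prim T.dne T.sq (tr g j)
  rw [chi_tr (parG (S := S) T.prim T.dne T.sq) T.g1 T.chi_g] at h1
  exact h1

theorem step {R : Type} [CommRing R] [IsDedekindDomain R] [Algebra R K] [IsFractionRing R K]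
    (T : Step ℓ S s d ζ g) (hF : Good ℓ ζ F) {a : ℕ}
    (h : ∀ i : ZMod ℓ, KilledA ℓ (C (d ^ i.val) * F) S R (ℓ ^ a)) :
    KilledA ℓ F (insert s S) R (ℓ ^ (a + 2)) := by
  intro f m hc hl ht
  have hℓ : ℓ ≠ 0 := T.prime.ne_zero
  have hdi : ∀ i : ZMod ℓ, d ^ i.val ≠ 0 := fun i => pow_ne_zero _ T.dne
  have hui : ∀ i : ZMod ℓ, (s ^ i.val) ^ ℓ = algebraMap K (SeparableClosure K) (d ^ i.val) := by
    intro i
    rw [← pow_mul, mul_comm, pow_mul, T.sq, map_pow]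
  have hSi : ∀ i : ZMod ℓ, ∀ σ : Gal K, Fixes (insert s S) σ → σ (s ^ i.val) = s ^ i.val := by
    intro i σ hσ
    rw [map_pow, (fixes_insert.1 hσ).2]
  have hex : ∀ i : ZMod ℓ, ∃ Q : MJ ℓ (C (d ^ i.val) * F) (SeparableClosure K), ∀ σ : Gal K,
      Fixes S σ → ℓ ^ a • (ℓ • corJ ℓ (C (d ^ i.val) * F) ζ s g
        (fun σ => twA F hℓ (hdi i) (hui i) (f σ)) σ) =
        aJ ℓ (C (d ^ i.val) * F) σ.toAlgHom Q - Q := by
    intro i
    have hc' := tw_coc hℓ (hdi i) (hui i) (hSi i) hc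
    obtain ⟨Q, hQ⟩ := h i (fun σ => ℓ • corJ ℓ (C (d ^ i.val) * F) ζ s g
      (fun σ => twA F hℓ (hdi i) (hui i) (f σ)) σ) m (corJ_coc T hc')
      (fun v => corJ_loc T hc'.2 (tw_loc hℓ (hdi i) (hui i) (hSi i) (hl v)))
      (corJ_tors T hc'.2 (tw_cob hℓ (hdi i) (hui i) (hSi i) ht))
    exact ⟨Q, fun σ hσ => hQ σ hσ⟩
  choose Q hQ using hex
  refine ⟨∑ i : ZMod ℓ, (twA F hℓ (hdi i) (hui i)).symm (Q i), fun σ hσ => ?_⟩
  have hσS : Fixes S σ := (fixes_insert.1 hσ).1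
  -- the conjugates
  obtain ⟨c, hcdef⟩ : ∃ c : ZMod ℓ → MJ ℓ F (SeparableClosure K),
    ∀ j, c j = aJ ℓ F (tr g j).toAlgHom (f ((tr g j)⁻¹ * σ * tr g j)) := ⟨_, fun _ => rfl⟩
  have hz := zeta_pow hF (SeparableClosure K)
  have e1 : ∀ i : ZMod ℓ, corJ ℓ (C (d ^ i.val) * F) ζ s g
      (fun σ => twA F hℓ (hdi i) (hui i) (f σ)) σ = twA F hℓ (hdi i) (hui i)
        (∑ j : ZMod ℓ, zp F (pow_zeta hz (j.val * i.val)) (c j)) := by
    intro i
    rw [corJ_in T hσ, map_sum]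
    refine Finset.sum_congr rfl fun j _ => ?_
    have hu' : ((tr g j).toAlgHom (s ^ i.val)) ^ ℓ =
        algebraMap K (SeparableClosure K) (d ^ i.val) := by
      rw [← map_pow, hui i, AlgHom.commutes]
    rw [twA_act hℓ (hdi i) (tr g j).toAlgHom (hui i) hu' rfl, ← hcdef,
      twA_mul hℓ (hdi i) (hui i) hu' (pow_zeta hz (j.val * i.val)) ?_]
    show tr g j (s ^ i.val) = _
    rw [map_pow, tr_s T, mul_pow, ← pow_mul, inv_pow, mul_comm]
  have e2 : ∀ i : ZMod ℓ, (ℓ ^ a * ℓ) • (∑ j : ZMod ℓ, zp F (pow_zeta hz (j.val * i.val)) (c j)) =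
      aJ ℓ F σ.toAlgHom ((twA F hℓ (hdi i) (hui i)).symm (Q i)) -
        (twA F hℓ (hdi i) (hui i)).symm (Q i) := by
    intro i
    have h1 := hQ i σ hσS
    rw [e1 i, ← map_nsmul, ← map_nsmul, ← mul_smul] at h1
    apply (twA F hℓ (hdi i) (hui i)).injective
    rw [h1, map_sub, ← twA_act hℓ (hdi i) σ.toAlgHom (hui i) (hui i) (hSi i σ hσ),
      AddEquiv.apply_symm_apply]
  have e3 : c 0 = f σ := by
    rw [hcdef]
    have h0 : tr g (0 : ZMod ℓ) = 1 := by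
      unfold tr
      rw [ZMod.val_zero, pow_zero]
    rw [h0, inv_one, one_mul, mul_one]
    exact aJ_id F (f σ)
  show ℓ ^ (a + 2) • f σ = _
  have e4 : ℓ ^ (a + 2) • f σ = ∑ i : ZMod ℓ, (ℓ ^ a * ℓ) •
      (∑ j : ZMod ℓ, zp F (pow_zeta hz (j.val * i.val)) (c j)) := by
    rw [← Finset.smul_sum, sum_all hF c, e3, ← mul_smul]
    congr 1
  rw [e4, Finset.sum_congr rfl fun i _ => e2 i, Finset.sum_sub_distrib, map_sum]

end stp

end Pool.Agent.H571.JL
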