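import Pool.Agent.H571.JL.Dens

/-!
# Twists which are good over all Kummer extensions unramified outside a given set

The conditions on the twisting polynomial `D` of `Pool.Agent.R431.SG.twist_crit` for a finite set `T`
of primes are enough for all the twists by divisors of powers of the product of `T` and for all
extensions of the field of constants at once.
-/

set_option autoImplicit false
set_option linter.all false

open scoped Classical

namespace Pool.Agent.H571.JL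

open Polynomial NumberField IsDedekindDomain Pool.Agent.Y713 Pool.Agent.Y713.SE Pool.Agent.R431.SG
open Pool.Agent.Y713.Jac (ShaPrimaryTrivial)

/-- the conditions on the twisting polynomial -/
structure GoodTwist {k : Type} [Field k] (ℓ : ℕ) (T : Finset k[X]) (D : k[X]) : Prop where
  irr : Irreducible D
  cst : ∀ c : k, (∃ a : k[X], D ∣ C c - a ^ ℓ) → ∃ b : k, c = b ^ ℓ
  ndvd : ∀ π ∈ T, ¬ D ∣ π
  ind : ∀ (c : k) (a : k[X] → ℕ) (z : k[X]), c ≠ 0 → D ∣ C c * ∏ π ∈ T, π ^ a π - z ^ ℓ →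
    ∀ π ∈ T, ℓ ∣ a π

section
variable {k : Type} [Field k] (K : Type) [Field K] [Algebra k[X] K] [IsFractionRing k[X] K]

/-- the criterion, with all the twists by divisors of the powers of `P` -/
theorem crit_uni {ℓ : ℕ} (hℓ : ℓ.Prime)
    (hk : (ℓ : k) ≠ 0) {ζ : k} (hζ : IsPrimitiveRoot ζ ℓ) {F : K[X]} (hs : F.Splits)
    (hsep : F.Separable) (hn : ¬ ℓ ∣ F.natDegree) {P : k[X]} (hP : P ≠ 0) :
    ∃ T : Finset k[X], (∀ π ∈ T, Irreducible π ∧ π.Monic) ∧
      ∀ D : k[X], GoodTwist ℓ T D → ∀ (A : k[X]) (m : ℕ), A ∣ P ^ m →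
        ShaPrimaryTrivial ℓ (C (algebraMap k[X] K D) * (C (algebraMap k[X] K A) * F)) k[X] := by
  classical
  have hnd : F.roots.Nodup := nodup_roots hsep
  have hF0 : F ≠ 0 := hsep.ne_zero
  set n := F.natDegree with hndef
  have hcard : F.roots.toFinset.card = n := by
    rw [Multiset.toFinset_card_of_nodup hnd, ← hs.natDegree_eq_card_roots]
  let eqv := F.roots.toFinset.equivFinOfCardEq hcard
  let e : Fin n → K := fun i => (eqv.symm i : K)
  have he : Function.Injective e := Subtype.val_injective.comp eqv.symm.injective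
  have hlc : F.leadingCoeff ≠ 0 := leadingCoeff_ne_zero.2 hF0
  have hfac : F = C F.leadingCoeff * ∏ i : Fin n, (X - C (e i)) := by
    conv_lhs => rw [hs.eq_prod_roots]
    congr 1
    have h3 : (F.roots.map fun a => X - C a).prod = ∏ a ∈ F.roots.toFinset, (X - C a) := by
      rw [Finset.prod_multiset_map_count]
      refine Finset.prod_congr rfl fun a ha => ?_
      rw [Multiset.count_eq_one_of_mem hnd (Multiset.mem_toFinset.1 ha), pow_one]
    rw [h3, ← Finset.prod_coe_sort]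
    exact (Equiv.prod_comp eqv.symm (fun a : F.roots.toFinset => (X - C (a : K)))).symm
  -- the bad places
  have hPK : algebraMap k[X] K P ≠ 0 := by simpa using hP
  let Bad : Set (HeightOneSpectrum k[X]) := ({v | v.valuation K F.leadingCoeff ≠ 1} ∪
    {v | v.valuation K (algebraMap k[X] K P) ≠ 1}) ∪
    ⋃ i : Fin n, ⋃ j : Fin n, if i = j then ∅ else {v | v.valuation K (e i - e j) ≠ 1}
  have hBad : Bad.Finite := by
    refine ((finite_bad hlc).union (finite_bad hPK)).union (Set.finite_iUnion fun i => Set.finite_iUnion fun j => ?_)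
    split_ifs with hij
    · exact Set.finite_empty
    · exact finite_bad (sub_ne_zero.2 fun h => hij (he h))
  have hnBadP : ∀ v, v ∉ Bad → v.valuation K (algebraMap k[X] K P) = 1 := by
    intro v hv
    rw [Set.mem_union, not_or, Set.mem_union, not_or] at hv
    exact not_not.1 hv.1.2
  have hnBad : ∀ v, v ∉ Bad → v.valuation K F.leadingCoeff = 1 ∧
      ∀ i j, i ≠ j → v.valuation K (e i - e j) = 1 := by
    intro v hv
    rw [Set.mem_union, not_or, Set.mem_union, not_or] at hv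
    refine ⟨not_not.1 hv.1.1, fun i j hij => ?_⟩
    by_contra hne
    apply hv.2
    rw [Set.mem_iUnion]
    refine ⟨i, Set.mem_iUnion.2 ⟨j, ?_⟩⟩
    rw [if_neg hij]
    exact hne
  let T : Finset k[X] := hBad.toFinset.image gen
  have hT : ∀ π ∈ T, Irreducible π ∧ π.Monic := by
    intro π hπ
    obtain ⟨v, -, rfl⟩ := Finset.mem_image.1 hπ
    exact ⟨gen_irr v, gen_monic v⟩
  have hTBad : ∀ v, (∀ π ∈ T, π ∉ v.asIdeal) → v ∉ Bad := by
    intro v hv hb
    exact hv (gen v) (Finset.mem_image.2 ⟨v, hBad.mem_toFinset.2 hb, rfl⟩) (gen_mem v)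
  refine ⟨T, hT, ?_⟩
  intro D hDgood A m hAP
  obtain ⟨hD2, hD4, hDT, hD5⟩ := hDgood
  have hA0 : A ≠ 0 := by
    rintro rfl
    exact pow_ne_zero m hP (zero_dvd_iff.1 hAP)
  have hAK : algebraMap k[X] K A ≠ 0 := by simpa using hA0
  have hvA : ∀ v, v ∉ Bad → v.valuation K (algebraMap k[X] K A) = 1 := by
    intro v hv
    rw [val_eq_one_iff]
    intro hmem
    have h1 := (val_eq_one_iff v P).1 (hnBadP v hv)
    apply h1
    have h2 : P ^ m ∈ v.asIdeal := v.asIdeal.mem_of_dvd hAP hmem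
    exact v.isPrime.mem_of_pow_mem m h2
  have hv0 : hp D hD2 ∉ Bad := by
    apply hTBad
    intro π hπ hmem
    exact hDT π hπ ((mem_hp hD2 π).1 hmem)
  have hDK : algebraMap k[X] K D ≠ 0 := by simpa using hD2.ne_zero
  have hδ : algebraMap k[X] K D * (algebraMap k[X] K A * F.leadingCoeff) ≠ 0 :=
    mul_ne_zero hDK (mul_ne_zero hAK hlc)
  let DD := tDat K hℓ hk hζ hδ he hn
  have hf : DD.f = C (algebraMap k[X] K D) * (C (algebraMap k[X] K A) * F) := by
    unfold Dat.f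
    show C (algebraMap k[X] K D * (algebraMap k[X] K A * F.leadingCoeff)) *
      ∏ i : Fin n, (X - C (e i)) = _
    conv_rhs => rw [hfac]
    rw [C_mul, C_mul]
    ring
  rw [← hf]
  obtain ⟨p, hexp⟩ := ExpChar.exists K
  haveI := hexp
  haveI : ExpChar (SeparableClosure K) p :=
    expChar_of_injective_algebraMap (algebraMap K (SeparableClosure K)).injective p
  haveI : ∀ v : HeightOneSpectrum k[X], ExpChar (SeparableClosure (v.adicCompletion K)) p := fun v =>
    expChar_of_injective_algebraMap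
      (algebraMap K (SeparableClosure (v.adicCompletion K))).injective p
  have hvD : ∀ v, v ≠ hp D hD2 → v.valuation K (algebraMap k[X] K D) = 1 := by
    intro v hv
    rw [val_eq_one_iff]
    exact fun hmem => hv (eq_hp hD2 hmem)
  apply DD.sha_primary (R := k[X])
  refine DD.crit1 (p := p) (fun v => SeparableClosure (v.adicCompletion K)) ?_ Bad (hp D hD2)
    (hnBad _ hv0).2 ?_ ?_ ?_
  · intro v
    have h3 : ((ℓ : ℕ) : K) = algebraMap k[X] K (C (ℓ : k)) := by
      rw [C_eq_natCast, map_natCast]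
    rw [h3]
    exact val_C hk
  · show ¬ Pw ℓ ((hp D hD2).valuation K
      (algebraMap k[X] K D * (algebraMap k[X] K A * F.leadingCoeff)))
    rw [map_mul, map_mul, (hnBad _ hv0).1, mul_one, hvA _ hv0, mul_one, val_hp_self]
    exact not_pw_exp hℓ
  · intro v hv hvne
    refine ⟨(hnBad v hv).2, ?_⟩
    show v.valuation K (algebraMap k[X] K D * (algebraMap k[X] K A * F.leadingCoeff)) = 1
    rw [map_mul, map_mul, (hnBad v hv).1, mul_one, hvA v hv, mul_one, hvD v hvne]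
  · intro d hd hpw hx
    exact stab2 hℓ hD2 hD4 T hT hDT hD5 hd (fun v hv hvne => hpw v (hTBad v hv) hvne) hx

end

/-- **Almost all polynomials satisfy the conditions for a given set `T`.** -/
theorem twists_T {k : Type} [Field k] [NumberField k] {J : Type} [Fintype J]
    (B : Module.Basis J ℤ (𝓞 k)) {ℓ : ℕ} (hℓ : ℓ.Prime) {ζ : k} (hζ : IsPrimitiveRoot ζ ℓ)
    (T : Finset k[X]) (hT : ∀ π ∈ T, Irreducible π ∧ π.Monic) {n : ℕ} (hn : 2 ≤ n)
    (hn3 : n = 2 → ℓ ≠ 2) {η : ℝ} (hη : 0 < η) :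
    ∃ H0 : ℕ, ∀ H : ℕ, H0 ≤ H →
      (({c : Fin (n + 1) → 𝓞 k | (∀ i j, |B.repr (c i) j| ≤ (H : ℤ)) ∧
        ¬ GoodTwist ℓ T (pol fun j => algebraMap (𝓞 k) k (c j))}.ncard : ℕ) : ℝ) ≤
        η * (2 * H + 1) ^ ((n + 1) * Fintype.card J) := by
  obtain ⟨m, rfl⟩ : ∃ m, n = m + 2 := ⟨n - 2, by omega⟩
  obtain ⟨ζ', hζ'⟩ : ∃ ζ' : 𝓞 k, IsPrimitiveRoot ζ' ℓ := by
    have hint : IsIntegral ℤ ζ := hζ.isIntegral hℓ.pos
    refine ⟨⟨ζ, hint⟩, ?_⟩
    refine IsPrimitiveRoot.of_map_of_injective (f := algebraMap (𝓞 k) k) ?_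
      (FaithfulSMul.algebraMap_injective _ _)
    exact hζ
  -- the models
  have hinj : Function.Injective (algebraMap (𝓞 k) k) := FaithfulSMul.algebraMap_injective _ _
  have hmod : ∀ s : k[X] → ℕ, ∃ (f : (𝓞 k)[X]) (e : k), e ≠ 0 ∧
      f.map (algebraMap (𝓞 k) k) = C e * ∏ π ∈ T, π ^ s π ∧
      ((∃ π0 ∈ T, Nat.Coprime (s π0) ℓ) →
      ∃ (k' : Type) (_ : Field k') (_ : NumberField k') (ι : 𝓞 k →+* 𝓞 k') (p0 : ℕ),
        ∀ (p : ℕ) [Fact p.Prime] (σ : 𝓞 k' →+* ℤ_[p]), p0 ≤ p →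
          1 ≤ (f.map (red (σ.comp ι))).natDegree ∧
            Pool.Agent.H435R3.Weil.Cop ℓ (f.map (red (σ.comp ι)))) := by
    intro s
    by_cases hex : ∃ π0 ∈ T, Nat.Coprime (s π0) ℓ
    · obtain ⟨π0, hπ0, hco⟩ := hex
      obtain ⟨f, e, he, hf, hk⟩ := model hT hℓ s hπ0 hco
      exact ⟨f, e, he, hf, fun _ => hk⟩
    · obtain ⟨f, d, hd, hf⟩ := clear (∏ π ∈ T, π ^ s π)
      refine ⟨f, algebraMap (𝓞 k) k d, ?_, hf, fun h => absurd h hex⟩
      rw [Ne, map_eq_zero_iff _ hinj]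
      exact hd
  choose f e he hf hk using hmod
  let Nob : Bool ⊕ ({π // π ∈ T} → Fin ℓ) → (Fin (m + 3) → 𝓞 k) → Prop := fun S c =>
    match S with
    | Sum.inl true => NoObs (RingHom.id (𝓞 k)) 2
        (fun p _ _ => {c | (pol c).natDegree = m + 2 ∧ Irreducible (pol c)}) c
    | Sum.inl false => 1 ≤ m ∧ NoObs (RingHom.id (𝓞 k)) 2
        (fun p _ _ => {c | ∃ (r : ZMod p) (g : (ZMod p)[X]), pol c = (X - C r) * g ∧
          g.natDegree = m + 1 ∧ Irreducible g}) c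
    | Sum.inr a => (∃ π ∈ T, xp a π ≠ 0) ∧ ∀ (p : ℕ) [Fact p.Prime] (σ : 𝓞 k →+* ℤ_[p]),
        ¬ PObs ℓ ((f (xp a)).map (red σ)) (fun j => red σ (c j))
  have hδ0 : (0 : ℝ) < 1 / (32 * (m + 2) ^ 2) := by positivity
  have hδ1 : (1 : ℝ) / (32 * (m + 2) ^ 2) ≤ 1 := d1 m
  have hdens : ∀ S ∈ (Finset.univ : Finset (Bool ⊕ ({π // π ∈ T} → Fin ℓ))), ∀ η : ℝ, 0 < η →
      ∃ H0 : ℕ, ∀ H : ℕ, H0 ≤ H →
      (({c : Fin (m + 3) → 𝓞 k | (∀ i j, |B.repr (c i) j| ≤ (H : ℤ)) ∧ Nob S c}.ncard : ℕ) : ℝ) ≤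
        η * (2 * H + 1) ^ (Fintype.card (Fin (m + 3)) * Fintype.card J) := by
    intro S _ η' hη'
    rcases S with (_ | _) | a
    · by_cases hm2 : 1 ≤ m
      · obtain ⟨H0, hH0⟩ := densG_one B (I := Fin (m + 3)) (RingHom.id (𝓞 k)) hδ0 hδ1 2
          (fun p _ _ => {c | ∃ (r : ZMod p) (g : (ZMod p)[X]), pol c = (X - C r) * g ∧
            g.natDegree = m + 1 ∧ Irreducible g}) (by
            intro p _ σ hp
            rw [Fintype.card_fin]
            have h1 := card_fac2 p (m := m + 1) (by omega)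
            refine le_trans ?_ h1
            exact mul_le_mul_of_nonneg_right (d2 m) (by positivity)) hη'
        refine ⟨H0, fun H hH => le_trans ?_ (hH0 H hH)⟩
        have h1 : {c : Fin (m + 3) → 𝓞 k | (∀ i j, |B.repr (c i) j| ≤ (H : ℤ)) ∧
            Nob (Sum.inl false) c}.ncard ≤
            {c : Fin (m + 3) → 𝓞 k | (∀ i j, |B.repr (c i) j| ≤ (H : ℤ)) ∧
              NoObs (RingHom.id (𝓞 k)) 2 (fun p _ _ => {c | ∃ (r : ZMod p) (g : (ZMod p)[X]),
                pol c = (X - C r) * g ∧ g.natDegree = m + 1 ∧ Irreducible g}) c}.ncard := by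
          refine Set.ncard_le_ncard ?_ ((box_fin B H).subset fun c hc => hc.1)
          rintro c ⟨hc1, hc2⟩
          exact ⟨hc1, hc2.2⟩
        exact_mod_cast h1
      · refine ⟨0, fun H _ => ?_⟩
        have h1 : {c : Fin (m + 3) → 𝓞 k | (∀ i j, |B.repr (c i) j| ≤ (H : ℤ)) ∧
            Nob (Sum.inl false) c} = ∅ := by
          ext c
          rw [Set.mem_setOf_eq, Set.mem_empty_iff_false, iff_false]
          rintro ⟨-, h2, -⟩
          exact hm2 h2
        rw [h1, Set.ncard_empty, Nat.cast_zero]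
        positivity
    · refine densG_one B (I := Fin (m + 3)) (RingHom.id (𝓞 k)) hδ0 hδ1 2
        (fun p _ _ => {c | (pol c).natDegree = m + 2 ∧ Irreducible (pol c)}) ?_ hη'
      intro p _ σ hp
      rw [Fintype.card_fin]
      have h1 := card_irr2 p (n := m + 2) (by omega)
      refine le_trans ?_ h1
      exact mul_le_mul_of_nonneg_right (d3 m) (by positivity)
    · by_cases ha : ∃ π ∈ T, xp a π ≠ 0
      · obtain ⟨π0, hπ0, hne⟩ := ha
        have hlt : xp a π0 < ℓ := by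
          unfold xp
          rw [dif_pos hπ0]
          exact (a ⟨π0, hπ0⟩).2
        have hco : Nat.Coprime (xp a π0) ℓ := by
          rw [Nat.coprime_comm, hℓ.coprime_iff_not_dvd]
          exact Nat.not_dvd_of_pos_of_lt (Nat.pos_of_ne_zero hne) hlt
        obtain ⟨k', _, _, ι, p0, hk'⟩ := hk (xp a) ⟨π0, hπ0, hco⟩
        obtain ⟨H0, hH0⟩ := dens_s B hℓ hζ' (f (xp a)) ι p0 hk' m hη'
        refine ⟨H0, fun H hH => le_trans ?_ (hH0 H hH)⟩
        have h1 : {c : Fin (m + 3) → 𝓞 k | (∀ i j, |B.repr (c i) j| ≤ (H : ℤ)) ∧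
            Nob (Sum.inr a) c}.ncard ≤
            {c : Fin (m + 3) → 𝓞 k | (∀ i j, |B.repr (c i) j| ≤ (H : ℤ)) ∧
              ∀ (p : ℕ) [Fact p.Prime] (σ : 𝓞 k →+* ℤ_[p]),
                ¬ PObs ℓ ((f (xp a)).map (red σ)) (fun j => red σ (c j))}.ncard := by
          refine Set.ncard_le_ncard ?_ ((box_fin B H).subset fun c hc => hc.1)
          rintro c ⟨hc1, hc2⟩
          exact ⟨hc1, hc2.2⟩
        exact_mod_cast h1
      · refine ⟨0, fun H _ => ?_⟩
        have h1 : {c : Fin (m + 3) → 𝓞 k | (∀ i j, |B.repr (c i) j| ≤ (H : ℤ)) ∧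
            Nob (Sum.inr a) c} = ∅ := by
          ext c
          rw [Set.mem_setOf_eq, Set.mem_empty_iff_false, iff_false]
          rintro ⟨-, h2, -⟩
          exact ha h2
        rw [h1, Set.ncard_empty, Nat.cast_zero]
        positivity
  obtain ⟨H0, hH0⟩ := combine B Finset.univ Nob hdens hη
  refine ⟨H0, fun H hH => ?_⟩
  have hfin := hH0 H hH {c : Fin (m + 3) → 𝓞 k | (∀ i j, |B.repr (c i) j| ≤ (H : ℤ)) ∧
        ¬ GoodTwist ℓ T (pol fun j => algebraMap (𝓞 k) k (c j))} ?_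
  · rw [Fintype.card_fin] at hfin
    exact hfin
  rintro c ⟨hbox, hnot⟩
  refine ⟨hbox, ?_⟩
  by_contra hall
  push Not at hall
  apply hnot
  -- the irreducibility
  have hA := hall (Sum.inl true) (Finset.mem_univ _)
  have hA' : ∃ (p : ℕ) (_ : Fact p.Prime) (σ : 𝓞 k →+* ℤ_[p]),
      (pol fun j => red σ (c j)).natDegree = m + 2 ∧ Irreducible (pol fun j => red σ (c j)) := by
    by_contra hcon
    push Not at hcon
    apply hA
    intro p hp σ _ hmem
    exact hcon p hp _ hmem.1 hmem.2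
  obtain ⟨p, hp, σ, hirr⟩ := hA'
  have hD : Irreducible (pol fun j => algebraMap (𝓞 k) k (c j)) :=
    irr_of_red σ (by omega) c hirr.1 hirr.2
  have hDd : (pol fun j => algebraMap (𝓞 k) k (c j)).natDegree = m + 2 := by
    refine le_antisymm (pol_degree _) ?_
    have h1 : ((pol fun j => c j).map (red σ)).natDegree = m + 2 := by
      rw [pol_map]; exact hirr.1
    have h2 : ((pol fun j => c j).map (red σ)).natDegree ≤ (pol fun j => c j).natDegree :=
      natDegree_map_le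
    have h3 : (pol fun j => algebraMap (𝓞 k) k (c j)) =
        (pol fun j => c j).map (algebraMap (𝓞 k) k) := by rw [pol_map]
    rw [h3, natDegree_map_eq_of_injective (FaithfulSMul.algebraMap_injective _ _)]
    omega
  obtain ⟨h1, h2⟩ := all_obsL (T := T) hℓ hD f e he hf (by
    intro a hne
    have hS := hall (Sum.inr a) (Finset.mem_univ _)
    by_contra hcon
    push Not at hcon
    exact hS ⟨hne, fun p hp σ => hcon p hp σ⟩)
  refine ⟨hD, ?_, h1, h2⟩
  intro b hb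
  by_cases hm2 : 1 ≤ m
  swap
  · refine SE.const_stable hℓ hD ?_ hb
    rw [hDd]
    intro hd
    have e1 : m + 2 = 2 := by omega
    rw [e1] at hd
    exact hn3 e1 ((Nat.prime_dvd_prime_iff_eq hℓ Nat.prime_two).1 hd)
  have hB := hall (Sum.inl false) (Finset.mem_univ _)
  have hB' : ∃ (p : ℕ) (_ : Fact p.Prime) (σ : 𝓞 k →+* ℤ_[p]) (r : ZMod p) (g : (ZMod p)[X]),
      (pol fun j => red σ (c j)) = (X - C r) * g ∧ g.natDegree = m + 1 ∧ Irreducible g := by
    by_contra hcon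
    push Not at hcon
    apply hB
    refine ⟨hm2, ?_⟩
    intro p hp σ _ hmem
    obtain ⟨r, g, hg1, hg2, hg3⟩ := hmem
    exact hcon p hp _ r g hg1 hg2 hg3
  obtain ⟨p, hp, σ, r, g, hg1, hg2, hg3⟩ := hB'
  have h3 : (pol fun j => σ (c j)).map (PadicInt.toZMod (p := p)) = (X - C r) * g := by
    rw [pol_map]
    exact hg1
  obtain ⟨ρ, G, hG1, hG2, hG3⟩ := fac_padic (f := pol fun j => σ (c j)) (m := m + 1)
    (pol_degree _) r g hg3 hg2 (by omega) h3
  refine const_of_facL hℓ (ext σ) (hζ.map_of_injective (ext σ).injective) hDd (by omega) hG1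
    hG2 (ρ := ρ) ?_ hb
  rw [← hG3, pol_map, pol_map]
  congr 1
  funext j
  exact ext_alg σ (c j)


section
variable {k : Type} [Field k] (K : Type) [Field K] [Algebra k[X] K] [IsFractionRing k[X] K]

/-- all Kummer extensions unramified outside `P` and infinity at once -/
theorem killed_uni {ℓ : ℕ} (hℓ : ℓ.Prime)
    (hk : (ℓ : k) ≠ 0) {ζ : k} (hζ : IsPrimitiveRoot ζ ℓ) {F : K[X]} (hs : F.Splits)
    (hsep : F.Separable) (hn : ¬ ℓ ∣ F.natDegree) {P : k[X]} (hP : P ≠ 0) :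
    ∃ T : Finset k[X], (∀ π ∈ T, Irreducible π ∧ π.Monic) ∧
      ∀ D : k[X], GoodTwist ℓ T D → ∀ (u : ℕ) (s : Fin u → SeparableClosure K),
        (∀ i, ∃ (A : k[X]) (m : ℕ), A ∣ P ^ m ∧
          s i ^ ℓ = algebraMap K (SeparableClosure K) (algebraMap k[X] K A)) →
        ShaPrimaryKilledBy ℓ (C (algebraMap k[X] K D) * F) (Set.range s) k[X] (ℓ ^ (2 * u)) := by
  obtain ⟨T, hT, h⟩ := crit_uni K hℓ hk hζ hs hsep hn hP
  refine ⟨T, hT, fun D hD u s hs' => ?_⟩
  choose A m hA hsA using hs'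
  have hA0 : ∀ i, A i ≠ 0 := by
    intro i h0
    have h1 := hA i
    rw [h0] at h1
    exact pow_ne_zero (m i) hP (zero_dvd_iff.1 h1)
  have hAK : ∀ i, algebraMap k[X] K (A i) ≠ 0 := fun i => by simpa using hA0 i
  have hDK : algebraMap k[X] K D ≠ 0 := by simpa using hD.irr.ne_zero
  refine killed_crit K hℓ hk hζ hs hsep hn hAK hsA hDK fun e => ?_
  have h1 : (∏ i, algebraMap k[X] K (A i) ^ (e i : ℕ)) =
      algebraMap k[X] K (∏ i, A i ^ (e i : ℕ)) := by
    rw [map_prod]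
    exact Finset.prod_congr rfl fun i _ => (map_pow _ _ _).symm
  rw [h1]
  refine h D hD _ (∑ i, m i * (e i : ℕ)) ?_
  rw [← Finset.prod_pow_eq_pow_sum]
  refine Finset.prod_dvd_prod_of_dvd _ _ fun i _ => ?_
  rw [pow_mul]
  exact pow_dvd_pow_of_dvd (hA i) _

/-- the existence of the twisting polynomials over general fields -/
theorem exists_uni {O : Type} [CommRing O] [IsDedekindDomain O] [Algebra O k]
    [IsFractionRing O k] (hinf : Infinite (HeightOneSpectrum O)) {ℓ : ℕ} (hℓ : ℓ.Prime)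
    (hk : (ℓ : k) ≠ 0) {ζ : k} (hζ : IsPrimitiveRoot ζ ℓ) {F : K[X]} (hs : F.Splits)
    (hsep : F.Separable) (hn : ¬ ℓ ∣ F.natDegree) {P : k[X]} (hP : P ≠ 0) (N : ℕ) :
    ∃ D : k[X], D.Monic ∧ Irreducible D ∧ N ≤ D.natDegree ∧
      ∀ (u : ℕ) (s : Fin u → SeparableClosure K),
        (∀ i, ∃ (A : k[X]) (m : ℕ), A ∣ P ^ m ∧
          s i ^ ℓ = algebraMap K (SeparableClosure K) (algebraMap k[X] K A)) →
        ShaPrimaryKilledBy ℓ (C (algebraMap k[X] K D) * F) (Set.range s) k[X] (ℓ ^ (2 * u)) := by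
  obtain ⟨T, hT, h⟩ := killed_uni K hℓ hk hζ hs hsep hn hP
  obtain ⟨D, hD1, hD2, hD3, hD4, hD5⟩ := exists_D2 hinf hℓ hk T hT
    (N + 1 + T.sup natDegree)
  refine ⟨D, hD1, hD2, by omega, h D ⟨hD2, fun c hc => const_stable hℓ hD2 hD4 hc, ?_, hD5⟩⟩
  intro π hπ hd
  have h1 := natDegree_le_of_dvd hd (hT π hπ).1.ne_zero
  have h2 : π.natDegree ≤ T.sup natDegree := Finset.le_sup hπ
  omega

end

/-- number fields: almost all twists, for all Kummer extensions unramified outside `P` at once -/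
theorem almost_all_uni {k : Type} [Field k] [NumberField k] {J : Type} [Fintype J]
    (B : Module.Basis J ℤ (𝓞 k)) {ℓ : ℕ} (hℓ : ℓ.Prime) {ζ : k} (hζ : IsPrimitiveRoot ζ ℓ)
    {F : (RatFunc k)[X]} (hs : F.Splits) (hsep : F.Separable)
    (hdeg : ¬ ℓ ∣ F.natDegree) {P : k[X]} (hP : P ≠ 0) {n : ℕ} (hn : 2 ≤ n)
    (hn3 : n = 2 → ℓ ≠ 2) {η : ℝ} (hη : 0 < η) :
    ∃ H0 : ℕ, ∀ H : ℕ, H0 ≤ H →
      (({c : Fin (n + 1) → 𝓞 k | (∀ i j, |B.repr (c i) j| ≤ (H : ℤ)) ∧
        ¬ ∀ (u : ℕ) (s : Fin u → SeparableClosure (RatFunc k)),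
        (∀ i, ∃ (A : k[X]) (m : ℕ), A ∣ P ^ m ∧
          s i ^ ℓ = algebraMap (RatFunc k) (SeparableClosure (RatFunc k))
            (algebraMap k[X] (RatFunc k) A)) →
        ShaPrimaryKilledBy ℓ (C (algebraMap k[X] (RatFunc k)
          (pol fun j => algebraMap (𝓞 k) k (c j))) * F) (Set.range s) k[X]
            (ℓ ^ (2 * u))}.ncard : ℕ) : ℝ) ≤
        η * (2 * H + 1) ^ ((n + 1) * Fintype.card J) := by
  obtain ⟨T, hT, h⟩ := killed_uni (RatFunc k) hℓ (by exact_mod_cast hℓ.ne_zero) hζ hs hsep hdeg hP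
  obtain ⟨H0, hH0⟩ := twists_T B hℓ hζ T hT hn hn3 hη
  refine ⟨H0, fun H hH => le_trans ?_ (hH0 H hH)⟩
  have h1 : {c : Fin (n + 1) → 𝓞 k | (∀ i j, |B.repr (c i) j| ≤ (H : ℤ)) ∧
        ¬ ∀ (u : ℕ) (s : Fin u → SeparableClosure (RatFunc k)),
        (∀ i, ∃ (A : k[X]) (m : ℕ), A ∣ P ^ m ∧
          s i ^ ℓ = algebraMap (RatFunc k) (SeparableClosure (RatFunc k))
            (algebraMap k[X] (RatFunc k) A)) →
        ShaPrimaryKilledBy ℓ (C (algebraMap k[X] (RatFunc k)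
          (pol fun j => algebraMap (𝓞 k) k (c j))) * F) (Set.range s) k[X]
            (ℓ ^ (2 * u))}.ncard ≤
      {c : Fin (n + 1) → 𝓞 k | (∀ i j, |B.repr (c i) j| ≤ (H : ℤ)) ∧
        ¬ GoodTwist ℓ T (pol fun j => algebraMap (𝓞 k) k (c j))}.ncard := by
    refine Set.ncard_le_ncard ?_ ((box_fin B H).subset fun c hc => hc.1)
    rintro c ⟨hc1, hc2⟩
    refine ⟨hc1, fun hgood => hc2 (h _ hgood)⟩
  exact_mod_cast h1

end Pool.Agent.H571.JL
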